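import Pool.Agent.E8helper69.CB.Data

/-!
# CB: the certificate for `x³`
-/

set_option autoImplicit false
set_option maxHeartbeats 0

namespace Pool.Agent.E8helper69.CB

/-- a coefficient -/
def c0_000 : V := ⟨149472, 12061, 137411, -286883, 149472, 149472⟩

/-- a coefficient -/
def c0_001 : V := ⟨-10503, -58700, 5949, 141962, 116124, 55189⟩

/-- a coefficient -/
def c0_002 : V := ⟨73215, 79625, 397334, -93435, -14642, 36299⟩

/-- a coefficient -/
def c0_010 : V := ⟨-52751, 175867, -197151, 4554, -255851, 116124⟩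

/-- a coefficient -/
def c0_011 : V := ⟨312709, -124821, 128304, 158257, 423768, -111839⟩

/-- a coefficient -/
def c0_012 : V := ⟨-21042, -750762, -1184007, -428701, -1213429, -413405⟩

/-- a coefficient -/
def c0_020 : V := ⟨476959, -448892, 57136, -470549, 136761, -14642⟩

/-- a coefficient -/
def c0_021 : V := ⟨0, 0, 0, 0, 0, 0⟩

/-- a coefficient -/
def c0_022 : V := ⟨-217532, 213310, 52828, -299944, -669998, -601282⟩

/-- a coefficient -/
def c0_100 : V := ⟨-21284, 110175, -120678, 249902, 55189, -255851⟩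

/-- a coefficient -/
def c0_101 : V := ⟨-175502, 295464, 17245, 42935, -111839, -171239⟩

/-- a coefficient -/
def c0_102 : V := ⟨0, 0, 0, 0, 0, 0⟩

/-- a coefficient -/
def c0_110 : V := ⟨3483, -129084, -46418, -441013, -171239, 423768⟩

/-- a coefficient -/
def c0_111 : V := ⟨-714986, -1182303, 467317, 247669, -714986, -714986⟩

/-- a coefficient -/
def c0_112 : V := ⟨10226, 354294, 149170, 184256, 308016, -3908⟩

/-- a coefficient -/
def c0_120 : V := ⟨-1934769, -421785, 842106, 1205049, 91344, -1213429⟩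

/-- a coefficient -/
def c0_121 : V := ⟨503464, 144712, -180348, -159396, 173946, 308016⟩

/-- a coefficient -/
def c0_122 : V := ⟨-55186, -630258, 449062, 115020, 1166952, 561626⟩

/-- a coefficient -/
def c0_200 : V := ⟨-391756, -411976, 485191, -534095, 36299, 136761⟩

/-- a coefficient -/
def c0_201 : V := ⟨420321, -29422, 8380, 1092663, -413405, 91344⟩

/-- a coefficient -/
def c0_202 : V := ⟨-205350, -722826, 505294, -1167364, -601282, 1114536⟩

/-- a coefficient -/
def c0_210 : V := ⟨0, 0, 0, 0, 0, 0⟩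

/-- a coefficient -/
def c0_211 : V := ⟨-35636, 158846, -148620, -323116, -3908, 173946⟩

/-- a coefficient -/
def c0_212 : V := ⟨658056, 717890, -773076, 857842, 561626, -1306904⟩

/-- a coefficient -/
def c0_220 : V := ⟨266138, -1106576, 901226, 164704, 1114536, -669998⟩

/-- a coefficient -/
def c0_221 : V := ⟨-181196, 1334702, -676646, -393876, -1306904, 1166952⟩

/-- a coefficient -/
def c0_222 : V := ⟨208374, 373510, -165136, -43238, 208374, 208374⟩

theorem i3_0 (x y z t : ℤ) :
    V.add3 (V.add3 (V.add3 (c0_000.mul (g000 x y z t)) (c0_001.mul (g001 x y z t)) (c0_002.mul (g002 x y z t)))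
      (V.add3 (c0_010.mul (g010 x y z t)) (c0_011.mul (g011 x y z t)) (c0_012.mul (g012 x y z t)))
      (V.add3 (c0_020.mul (g020 x y z t)) (c0_021.mul (g021 x y z t)) (c0_022.mul (g022 x y z t))))
    (V.add3 (V.add3 (c0_100.mul (g100 x y z t)) (c0_101.mul (g101 x y z t)) (c0_102.mul (g102 x y z t)))
      (V.add3 (c0_110.mul (g110 x y z t)) (c0_111.mul (g111 x y z t)) (c0_112.mul (g112 x y z t)))
      (V.add3 (c0_120.mul (g120 x y z t)) (c0_121.mul (g121 x y z t)) (c0_122.mul (g122 x y z t))))
    (V.add3 (V.add3 (c0_200.mul (g200 x y z t)) (c0_201.mul (g201 x y z t)) (c0_202.mul (g202 x y z t)))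
      (V.add3 (c0_210.mul (g210 x y z t)) (c0_211.mul (g211 x y z t)) (c0_212.mul (g212 x y z t)))
      (V.add3 (c0_220.mul (g220 x y z t)) (c0_221.mul (g221 x y z t)) (c0_222.mul (g222 x y z t)))) =
      ⟨438644684 * x ^ 3 + (0) * F x y z t, 0, 0, 0, 0, 0⟩ := by
  simp only [V.add3, V.mul, F, c0_000, c0_001, c0_002, c0_010, c0_011, c0_012, c0_020, c0_021, c0_022, c0_100, c0_101, c0_102, c0_110, c0_111, c0_112, c0_120, c0_121, c0_122, c0_200, c0_201, c0_202, c0_210, c0_211, c0_212, c0_220, c0_221, c0_222,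
    g000, g001, g002, g010, g011, g012, g020, g021, g022, g100, g101, g102, g110, g111, g112, g120, g121, g122, g200, g201, g202, g210, g211, g212, g220, g221, g222]
  congr 1 <;> ring

end Pool.Agent.E8helper69.CB
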