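import Pool.Agent.E8helper69.CB.Data

/-!
# CB: the certificate for `y³`
-/

set_option autoImplicit false
set_option maxHeartbeats 0

namespace Pool.Agent.E8helper69.CB

/-- a coefficient -/
def c1_000 : V := ⟨-124934, -490570, 365636, -240702, -124934, -124934⟩

/-- a coefficient -/
def c1_001 : V := ⟨-174131, -150958, 310662, -358411, 96575, 195830⟩

/-- a coefficient -/
def c1_002 : V := ⟨-125752, -97530, -113847, -21083, 74779, -64235⟩

/-- a coefficient -/
def c1_010 : V := ⟨159704, 155874, 162581, -136531, 11623, 96575⟩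

/-- a coefficient -/
def c1_011 : V := ⟨-42615, 20675, -62883, 123050, -143409, -21954⟩

/-- a coefficient -/
def c1_012 : V := ⟨-358845, 871981, -81699, 555366, 438423, -298234⟩

/-- a coefficient -/
def c1_020 : V := ⟨-211377, 250143, 85318, 239599, -12212, 74779⟩

/-- a coefficient -/
def c1_021 : V := ⟨0, 0, 0, 0, 0, 0⟩

/-- a coefficient -/
def c1_022 : V := ⟨722039, 612251, -849890, 687073, -95044, 23617⟩

/-- a coefficient -/
def c1_100 : V := ⟨318455, -214087, 39956, -322285, 195830, 11623⟩

/-- a coefficient -/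
def c1_101 : V := ⟨-160961, -80526, 37911, 143304, -21954, -80421⟩

/-- a coefficient -/
def c1_102 : V := ⟨0, 0, 0, 0, 0, 0⟩

/-- a coefficient -/
def c1_110 : V := ⟨-42208, -59865, -101096, 105498, -80421, -143409⟩

/-- a coefficient -/
def c1_111 : V := ⟨-448948, -1002106, 553158, -104210, -448948, -448948⟩

/-- a coefficient -/
def c1_112 : V := ⟨5819, -430008, 368667, -150216, 8560, 29271⟩

/-- a coefficient -/
def c1_120 : V := ⟨790282, 580733, -257132, 440544, 614849, 438423⟩

/-- a coefficient -/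
def c1_121 : V := ⟨-61341, -336655, 120945, -374486, -309063, 8560⟩

/-- a coefficient -/
def c1_122 : V := ⟨-110161, -259601, 51334, -168805, -190110, -310295⟩

/-- a coefficient -/
def c1_200 : V := ⟨335461, 188626, -314378, 126059, -64235, -12212⟩

/-- a coefficient -/
def c1_201 : V := ⟨323601, 520122, -878967, -533150, -298234, 614849⟩

/-- a coefficient -/
def c1_202 : V := ⟨-654266, 754846, -32807, 948329, 23617, -98439⟩

/-- a coefficient -/
def c1_210 : V := ⟨0, 0, 0, 0, 0, 0⟩

/-- a coefficient -/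
def c1_211 : V := ⟨-215710, -360107, 365926, -59604, 29271, -309063⟩

/-- a coefficient -/
def c1_212 : V := ⟨37522, -241444, 131283, -270833, -310295, 219499⟩

/-- a coefficient -/
def c1_220 : V := ⟨-237639, 56424, -710690, 127851, -98439, -95044⟩

/-- a coefficient -/
def c1_221 : V := ⟨-208267, -441578, 479100, 58827, 219499, -190110⟩

/-- a coefficient -/
def c1_222 : V := ⟨-477892, -774877, 296985, 180907, -477892, -477892⟩

theorem i3_1 (x y z t : ℤ) :
    V.add3 (V.add3 (V.add3 (c1_000.mul (g000 x y z t)) (c1_001.mul (g001 x y z t)) (c1_002.mul (g002 x y z t)))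
      (V.add3 (c1_010.mul (g010 x y z t)) (c1_011.mul (g011 x y z t)) (c1_012.mul (g012 x y z t)))
      (V.add3 (c1_020.mul (g020 x y z t)) (c1_021.mul (g021 x y z t)) (c1_022.mul (g022 x y z t))))
    (V.add3 (V.add3 (c1_100.mul (g100 x y z t)) (c1_101.mul (g101 x y z t)) (c1_102.mul (g102 x y z t)))
      (V.add3 (c1_110.mul (g110 x y z t)) (c1_111.mul (g111 x y z t)) (c1_112.mul (g112 x y z t)))
      (V.add3 (c1_120.mul (g120 x y z t)) (c1_121.mul (g121 x y z t)) (c1_122.mul (g122 x y z t))))
    (V.add3 (V.add3 (c1_200.mul (g200 x y z t)) (c1_201.mul (g201 x y z t)) (c1_202.mul (g202 x y z t)))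
      (V.add3 (c1_210.mul (g210 x y z t)) (c1_211.mul (g211 x y z t)) (c1_212.mul (g212 x y z t)))
      (V.add3 (c1_220.mul (g220 x y z t)) (c1_221.mul (g221 x y z t)) (c1_222.mul (g222 x y z t)))) =
      ⟨438644684 * y ^ 3 + (0) * F x y z t, 0, 0, 0, 0, 0⟩ := by
  simp only [V.add3, V.mul, F, c1_000, c1_001, c1_002, c1_010, c1_011, c1_012, c1_020, c1_021, c1_022, c1_100, c1_101, c1_102, c1_110, c1_111, c1_112, c1_120, c1_121, c1_122, c1_200, c1_201, c1_202, c1_210, c1_211, c1_212, c1_220, c1_221, c1_222,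
    g000, g001, g002, g010, g011, g012, g020, g021, g022, g100, g101, g102, g110, g111, g112, g120, g121, g122, g200, g201, g202, g210, g211, g212, g220, g221, g222]
  congr 1 <;> ring

end Pool.Agent.E8helper69.CB
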