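import Pool.Agent.E8helper69.CB.Data

/-!
# CB: the certificate for `z³`
-/

set_option autoImplicit false
set_option maxHeartbeats 0

namespace Pool.Agent.E8helper69.CB

/-- a coefficient -/
def c2_000 : V := ⟨493262, 1122435, -629173, 135911, 493262, 493262⟩

/-- a coefficient -/
def c2_001 : V := ⟨545553, 317570, -32776, 375441, 481505, -116150⟩

/-- a coefficient -/
def c2_002 : V := ⟨-482704, 465778, -90778, 54958, -196606, -302276⟩

/-- a coefficient -/
def c2_010 : V := ⟨284794, -147422, -259291, -512777, 58279, 481505⟩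

/-- a coefficient -/
def c2_011 : V := ⟨-65123, 218124, -1457, 430678, 890728, -13195⟩

/-- a coefficient -/
def c2_012 : V := ⟨104825, 81293, 128113, -258660, -314611, 312340⟩

/-- a coefficient -/
def c2_020 : V := ⟨375000, 74600, 247318, 573482, 713096, -196606⟩

/-- a coefficient -/
def c2_021 : V := ⟨829196, 829196, 829196, 829196, 0, 0⟩

/-- a coefficient -/
def c2_022 : V := ⟨597355, 183219, -627483, -143664, 155015, -125570⟩

/-- a coefficient -/
def c2_100 : V := ⟨-406713, 514281, 31272, -25503, -116150, 58279⟩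

/-- a coefficient -/
def c2_101 : V := ⟨526630, 892185, -957308, 200816, -13195, -199359⟩

/-- a coefficient -/
def c2_102 : V := ⟨-2487588, -829196, 1658392, -829196, 0, 0⟩

/-- a coefficient -/
def c2_110 : V := ⟨216667, 944113, -417483, 66580, -199359, 890728⟩

/-- a coefficient -/
def c2_111 : V := ⟨59238, 310132, -250894, 191656, 59238, 59238⟩

/-- a coefficient -/
def c2_112 : V := ⟨221402, -132945, 25638, 253304, -12877, -566701⟩

/-- a coefficient -/
def c2_120 : V := ⟨209406, -235209, -53680, -232938, 27613, -314611⟩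

/-- a coefficient -/
def c2_121 : V := ⟨-107307, -826618, 313397, -247040, 180452, -12877⟩

/-- a coefficient -/
def c2_122 : V := ⟨-130324, 413980, -132386, -106510, -148940, 293344⟩

/-- a coefficient -/
def c2_200 : V := ⟨321918, -105828, -376876, -622318, -302276, 713096⟩

/-- a coefficient -/
def c2_201 : V := ⟨-288889, -442724, 547549, -155726, 312340, 27613⟩

/-- a coefficient -/
def c2_202 : V := ⟨328807, 782498, -185143, 175030, -125570, 452453⟩

/-- a coefficient -/
def c2_210 : V := ⟨1658392, -1658392, -829196, -1658392, 0, 0⟩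

/-- a coefficient -/
def c2_211 : V := ⟨-513221, -38515, 259917, -206090, -566701, 180452⟩

/-- a coefficient -/
def c2_212 : V := ⟨220280, -16554, -113770, -94760, 293344, 227146⟩

/-- a coefficient -/
def c2_220 : V := ⟨-444264, 59573, 269234, 30128, 452453, 155015⟩

/-- a coefficient -/
def c2_221 : V := ⟨281594, 407114, -186834, 262710, 227146, -148940⟩

/-- a coefficient -/
def c2_222 : V := ⟨296358, 479956, -183598, -112760, 296358, 296358⟩

theorem i3_2 (x y z t : ℤ) :
    V.add3 (V.add3 (V.add3 (c2_000.mul (g000 x y z t)) (c2_001.mul (g001 x y z t)) (c2_002.mul (g002 x y z t)))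
      (V.add3 (c2_010.mul (g010 x y z t)) (c2_011.mul (g011 x y z t)) (c2_012.mul (g012 x y z t)))
      (V.add3 (c2_020.mul (g020 x y z t)) (c2_021.mul (g021 x y z t)) (c2_022.mul (g022 x y z t))))
    (V.add3 (V.add3 (c2_100.mul (g100 x y z t)) (c2_101.mul (g101 x y z t)) (c2_102.mul (g102 x y z t)))
      (V.add3 (c2_110.mul (g110 x y z t)) (c2_111.mul (g111 x y z t)) (c2_112.mul (g112 x y z t)))
      (V.add3 (c2_120.mul (g120 x y z t)) (c2_121.mul (g121 x y z t)) (c2_122.mul (g122 x y z t))))
    (V.add3 (V.add3 (c2_200.mul (g200 x y z t)) (c2_201.mul (g201 x y z t)) (c2_202.mul (g202 x y z t)))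
      (V.add3 (c2_210.mul (g210 x y z t)) (c2_211.mul (g211 x y z t)) (c2_212.mul (g212 x y z t)))
      (V.add3 (c2_220.mul (g220 x y z t)) (c2_221.mul (g221 x y z t)) (c2_222.mul (g222 x y z t)))) =
      ⟨438644684 * z ^ 3 + (-438644684) * F x y z t, 0, 0, 0, 0, 0⟩ := by
  simp only [V.add3, V.mul, F, c2_000, c2_001, c2_002, c2_010, c2_011, c2_012, c2_020, c2_021, c2_022, c2_100, c2_101, c2_102, c2_110, c2_111, c2_112, c2_120, c2_121, c2_122, c2_200, c2_201, c2_202, c2_210, c2_211, c2_212, c2_220, c2_221, c2_222,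
    g000, g001, g002, g010, g011, g012, g020, g021, g022, g100, g101, g102, g110, g111, g112, g120, g121, g122, g200, g201, g202, g210, g211, g212, g220, g221, g222]
  congr 1 <;> ring

end Pool.Agent.E8helper69.CB
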