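import Pool.Agent.E8helper69.CB.Data

/-!
# CB: the certificate for `t³`
-/

set_option autoImplicit false
set_option maxHeartbeats 0

namespace Pool.Agent.E8helper69.CB

/-- a coefficient -/
def c3_000 : V := ⟨461460, 754834, -293374, -168086, 461460, 461460⟩

/-- a coefficient -/
def c3_001 : V := ⟨-662088, 214619, 325494, -404468, 639781, -568381⟩

/-- a coefficient -/
def c3_002 : V := ⟨-101264, 769383, -264848, 621838, 693129, 174371⟩

/-- a coefficient -/
def c3_010 : V := ⟨540113, 407994, 972849, 336594, 1187468, 639781⟩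

/-- a coefficient -/
def c3_011 : V := ⟨-694738, 449837, -103776, -407108, 539863, 434889⟩

/-- a coefficient -/
def c3_012 : V := ⟨44454, 395132, 1090826, 384454, 1016004, 757982⟩

/-- a coefficient -/
def c3_020 : V := ⟨504535, 1233612, -796209, 366112, -26826, 693129⟩

/-- a coefficient -/
def c3_021 : V := ⟨0, 0, -829196, 0, 829196, -829196⟩

/-- a coefficient -/
def c3_022 : V := ⟨429732, 361335, -101455, 345745, 654972, 899650⟩

/-- a coefficient -/
def c3_100 : V := ⟨1380843, 314287, -976375, -1512962, -568381, 1187468⟩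

/-- a coefficient -/
def c3_101 : V := ⟨1745485, 643639, -1338377, -318280, 434889, 422056⟩

/-- a coefficient -/
def c3_102 : V := ⟨1658392, 1658392, -1658392, 0, -829196, 829196⟩

/-- a coefficient -/
def c3_110 : V := ⟨346061, 1773266, -27781, 798514, 422056, 539863⟩

/-- a coefficient -/
def c3_111 : V := ⟨981158, 963715, 17443, -998601, 981158, 981158⟩

/-- a coefficient -/
def c3_112 : V := ⟨-444276, 527805, 2223811, -429501, 981970, 192874⟩

/-- a coefficient -/
def c3_120 : V := ⟨1485958, 638706, -1142436, -1135280, -747304, 1016004⟩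

/-- a coefficient -/
def c3_121 : V := ⟨2751616, -604691, 236627, -1779535, 764432, 981970⟩

/-- a coefficient -/
def c3_122 : V := ⟨456541, 313973, -195922, -1115235, -1683470, -1094413⟩

/-- a coefficient -/
def c3_200 : V := ⟨437403, 957977, -1059241, 291674, 174371, -26826⟩

/-- a coefficient -/
def c3_201 : V := ⟨-503730, -74822, 119276, -343522, 757982, -747304⟩

/-- a coefficient -/
def c3_202 : V := ⟨-19050, 756427, -326695, 985515, 899650, -884060⟩

/-- a coefficient -/
def c3_210 : V := ⟨-829196, 829196, 829196, 829196, 829196, 829196⟩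

/-- a coefficient -/
def c3_211 : V := ⟨-368064, -1241841, 797565, -2988243, 192874, 764432⟩

/-- a coefficient -/
def c3_212 : V := ⟨-828854, -1487548, 1944089, -2327699, -1094413, 2523621⟩

/-- a coefficient -/
def c3_220 : V := ⟨259880, 1226345, -1245395, -328277, -884060, 654972⟩

/-- a coefficient -/
def c3_221 : V := ⟨118051, -3038502, 2209648, -260619, 2523621, -1683470⟩

/-- a coefficient -/
def c3_222 : V := ⟨36914, 2441, 34473, -71387, 36914, 36914⟩

theorem i3_3 (x y z t : ℤ) :
    V.add3 (V.add3 (V.add3 (c3_000.mul (g000 x y z t)) (c3_001.mul (g001 x y z t)) (c3_002.mul (g002 x y z t)))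
      (V.add3 (c3_010.mul (g010 x y z t)) (c3_011.mul (g011 x y z t)) (c3_012.mul (g012 x y z t)))
      (V.add3 (c3_020.mul (g020 x y z t)) (c3_021.mul (g021 x y z t)) (c3_022.mul (g022 x y z t))))
    (V.add3 (V.add3 (c3_100.mul (g100 x y z t)) (c3_101.mul (g101 x y z t)) (c3_102.mul (g102 x y z t)))
      (V.add3 (c3_110.mul (g110 x y z t)) (c3_111.mul (g111 x y z t)) (c3_112.mul (g112 x y z t)))
      (V.add3 (c3_120.mul (g120 x y z t)) (c3_121.mul (g121 x y z t)) (c3_122.mul (g122 x y z t))))
    (V.add3 (V.add3 (c3_200.mul (g200 x y z t)) (c3_201.mul (g201 x y z t)) (c3_202.mul (g202 x y z t)))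
      (V.add3 (c3_210.mul (g210 x y z t)) (c3_211.mul (g211 x y z t)) (c3_212.mul (g212 x y z t)))
      (V.add3 (c3_220.mul (g220 x y z t)) (c3_221.mul (g221 x y z t)) (c3_222.mul (g222 x y z t)))) =
      ⟨438644684 * t ^ 3 + (0) * F x y z t, 0, 0, 0, 0, 0⟩ := by
  simp only [V.add3, V.mul, F, c3_000, c3_001, c3_002, c3_010, c3_011, c3_012, c3_020, c3_021, c3_022, c3_100, c3_101, c3_102, c3_110, c3_111, c3_112, c3_120, c3_121, c3_122, c3_200, c3_201, c3_202, c3_210, c3_211, c3_212, c3_220, c3_221, c3_222,
    g000, g001, g002, g010, g011, g012, g020, g021, g022, g100, g101, g102, g110, g111, g112, g120, g121, g122, g200, g201, g202, g210, g211, g212, g220, g221, g222]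
  congr 1 <;> ring

end Pool.Agent.E8helper69.CB
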