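import Pool.Agent.E8helper69.CB.Data

/-!
# CB: identities `∑_a M_ia G_abc = F A_ibc`
-/

set_option autoImplicit false
set_option maxHeartbeats 0

namespace Pool.Agent.E8helper69.CB

theorem i1_120 (x y z t : ℤ) :
    V.add3 ((m10 x y z t).mul (g020 x y z t)) ((m11 x y z t).mul (g120 x y z t))
      ((m12 x y z t).mul (g220 x y z t)) = V.smul (F x y z t) (A120 x y z t) := by
  simp only [V.add3, V.mul, V.smul, m10, m11, m12, g020, g120, g220, A120, F]
  congr 1 <;> ring

theorem i1_121 (x y z t : ℤ) :
    V.add3 ((m10 x y z t).mul (g021 x y z t)) ((m11 x y z t).mul (g121 x y z t))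
      ((m12 x y z t).mul (g221 x y z t)) = V.smul (F x y z t) (A121 x y z t) := by
  simp only [V.add3, V.mul, V.smul, m10, m11, m12, g021, g121, g221, A121, F]
  congr 1 <;> ring

theorem i1_122 (x y z t : ℤ) :
    V.add3 ((m10 x y z t).mul (g022 x y z t)) ((m11 x y z t).mul (g122 x y z t))
      ((m12 x y z t).mul (g222 x y z t)) = V.smul (F x y z t) (A122 x y z t) := by
  simp only [V.add3, V.mul, V.smul, m10, m11, m12, g022, g122, g222, A122, F]
  congr 1 <;> ring

end Pool.Agent.E8helper69.CB
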