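import Pool.Agent.E8helper69.CB.Data

/-!
# CB: identities `∑_a M_ia G_abc = F A_ibc`
-/

set_option autoImplicit false
set_option maxHeartbeats 0

namespace Pool.Agent.E8helper69.CB

theorem i1_200 (x y z t : ℤ) :
    V.add3 ((m20 x y z t).mul (g000 x y z t)) ((m21 x y z t).mul (g100 x y z t))
      ((m22 x y z t).mul (g200 x y z t)) = V.smul (F x y z t) (A200 x y z t) := by
  simp only [V.add3, V.mul, V.smul, m20, m21, m22, g000, g100, g200, A200, F]
  congr 1 <;> ring

theorem i1_201 (x y z t : ℤ) :
    V.add3 ((m20 x y z t).mul (g001 x y z t)) ((m21 x y z t).mul (g101 x y z t))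
      ((m22 x y z t).mul (g201 x y z t)) = V.smul (F x y z t) (A201 x y z t) := by
  simp only [V.add3, V.mul, V.smul, m20, m21, m22, g001, g101, g201, A201, F]
  congr 1 <;> ring

theorem i1_202 (x y z t : ℤ) :
    V.add3 ((m20 x y z t).mul (g002 x y z t)) ((m21 x y z t).mul (g102 x y z t))
      ((m22 x y z t).mul (g202 x y z t)) = V.smul (F x y z t) (A202 x y z t) := by
  simp only [V.add3, V.mul, V.smul, m20, m21, m22, g002, g102, g202, A202, F]
  congr 1 <;> ring

end Pool.Agent.E8helper69.CB
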