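import Pool.Agent.E8helper69.CB.Data

/-!
# CB: identities `∑_a M_ia G_abc = F A_ibc`
-/

set_option autoImplicit false
set_option maxHeartbeats 0

namespace Pool.Agent.E8helper69.CB

theorem i1_210 (x y z t : ℤ) :
    V.add3 ((m20 x y z t).mul (g010 x y z t)) ((m21 x y z t).mul (g110 x y z t))
      ((m22 x y z t).mul (g210 x y z t)) = V.smul (F x y z t) (A210 x y z t) := by
  simp only [V.add3, V.mul, V.smul, m20, m21, m22, g010, g110, g210, A210, F]
  congr 1 <;> ring

theorem i1_211 (x y z t : ℤ) :
    V.add3 ((m20 x y z t).mul (g011 x y z t)) ((m21 x y z t).mul (g111 x y z t))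
      ((m22 x y z t).mul (g211 x y z t)) = V.smul (F x y z t) (A211 x y z t) := by
  simp only [V.add3, V.mul, V.smul, m20, m21, m22, g011, g111, g211, A211, F]
  congr 1 <;> ring

theorem i1_212 (x y z t : ℤ) :
    V.add3 ((m20 x y z t).mul (g012 x y z t)) ((m21 x y z t).mul (g112 x y z t))
      ((m22 x y z t).mul (g212 x y z t)) = V.smul (F x y z t) (A212 x y z t) := by
  simp only [V.add3, V.mul, V.smul, m20, m21, m22, g012, g112, g212, A212, F]
  congr 1 <;> ring

end Pool.Agent.E8helper69.CB
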