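import Pool.Agent.E8helper69.CB.Data

/-!
# CB: the prime 2
-/

set_option autoImplicit false

namespace Pool.Agent.E8helper69.CB

/-- the residues modulo `2` of a primitive zero of `F` -/
def Res (x y z t : ℤ) : Prop :=
  ((x : ZMod 2) = 1 ∧ (y : ZMod 2) = 0 ∧ (z : ZMod 2) = 1 ∧ (t : ZMod 2) = 1) ∨
  ((x : ZMod 2) = 1 ∧ (y : ZMod 2) = 1 ∧ (z : ZMod 2) = 0 ∧ (t : ZMod 2) = 0) ∨
  ((x : ZMod 2) = 1 ∧ (y : ZMod 2) = 1 ∧ (z : ZMod 2) = 1 ∧ (t : ZMod 2) = 1)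

theorem par_cases : ∀ X Y Z T : ZMod 2, X ^ 3 + 2 * X ^ 2 * Y + Y ^ 3 + Y ^ 2 * Z + X * Z ^ 2 +
    Z ^ 3 + T ^ 2 * X - T ^ 2 * Y - T ^ 2 * Z + T * Y * Z + T ^ 3 = 0 →
    ¬ (X = 0 ∧ Y = 0 ∧ Z = 0 ∧ T = 0) →
    (X = 1 ∧ Y = 0 ∧ Z = 1 ∧ T = 1) ∨ (X = 1 ∧ Y = 1 ∧ Z = 0 ∧ T = 0) ∨
    (X = 1 ∧ Y = 1 ∧ Z = 1 ∧ T = 1) := by decide

theorem res_of {x y z t : ℤ} (hF : F x y z t = 0)
    (h : ¬ (2 ∣ x ∧ 2 ∣ y ∧ 2 ∣ z ∧ 2 ∣ t)) : Res x y z t := by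
  apply par_cases
  · have := congrArg (fun n : ℤ => (n : ZMod 2)) hF
    simp only [F] at this
    push_cast at this
    exact this
  · rintro ⟨h1, h2, h3, h4⟩
    apply h
    have e : ∀ n : ℤ, (n : ZMod 2) = 0 → 2 ∣ n := fun n hn =>
      (ZMod.intCast_zmod_eq_zero_iff_dvd n 2).1 hn
    exact ⟨e _ h1, e _ h2, e _ h3, e _ h4⟩

theorem even_of {n : ℤ} (h : (n : ZMod 2) = 0) : ∃ k : ℤ, n = 0 + 2 * k := by
  obtain ⟨k, hk⟩ := (ZMod.intCast_zmod_eq_zero_iff_dvd n 2).1 h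
  exact ⟨k, by rw [hk]; push_cast; ring⟩

theorem odd_of {n : ℤ} (h : (n : ZMod 2) = 1) : ∃ k : ℤ, n = 1 + 2 * k := by
  have h1 : ((n - 1 : ℤ) : ZMod 2) = 0 := by
    push_cast
    rw [h, sub_self]
  obtain ⟨k, hk⟩ := (ZMod.intCast_zmod_eq_zero_iff_dvd (n - 1) 2).1 h1
  exact ⟨k, by push_cast at hk; linarith⟩

theorem g000_par {x y z t : ℤ} (h : Res x y z t) :
    ((g000 x y z t).a : ZMod 2) = 1 ∧ ((g000 x y z t).b : ZMod 2) = 1 ∧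
    ((g000 x y z t).c : ZMod 2) = 1 ∧ ((g000 x y z t).d : ZMod 2) = 1 ∧
    ((g000 x y z t).e : ZMod 2) = 0 ∧ ((g000 x y z t).f : ZMod 2) = 1 := by
  simp only [g000]
  push_cast
  rcases h with ⟨hx, hy, hz, ht⟩ | ⟨hx, hy, hz, ht⟩ | ⟨hx, hy, hz, ht⟩ <;>
    rw [hx, hy, hz, ht] <;> decide

/-- an entry of the adjugate matrix -/
def adjV (x y z t : ℤ) : V :=
  V.add3 ((m00 x y z t).mul (m11 x y z t)) (V.smul (-1) ((m01 x y z t).mul (m10 x y z t)))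
    ⟨0, 0, 0, 0, 0, 0⟩

theorem adjV_par {x y z t : ℤ} (h : Res x y z t) :
    (((adjV x y z t).a : ZMod 2) = 0 ∧ ((adjV x y z t).b : ZMod 2) = 1 ∧
    ((adjV x y z t).c : ZMod 2) = 0 ∧ ((adjV x y z t).d : ZMod 2) = 1 ∧
    ((adjV x y z t).e : ZMod 2) = 1 ∧ ((adjV x y z t).f : ZMod 2) = 0) ∨
    (((adjV x y z t).a : ZMod 2) = 1 ∧ ((adjV x y z t).b : ZMod 2) = 0 ∧
    ((adjV x y z t).c : ZMod 2) = 0 ∧ ((adjV x y z t).d : ZMod 2) = 0 ∧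
    ((adjV x y z t).e : ZMod 2) = 1 ∧ ((adjV x y z t).f : ZMod 2) = 0) := by
  simp only [adjV, V.add3, V.smul, V.mul, m00, m11, m01, m10]
  push_cast
  rcases h with ⟨hx, hy, hz, ht⟩ | ⟨hx, hy, hz, ht⟩ | ⟨hx, hy, hz, ht⟩
  · left; rw [hx, hy, hz, ht]; decide
  · left; rw [hx, hy, hz, ht]; decide
  · right; rw [hx, hy, hz, ht]; decide

variable {H : Type} [Field H] (D : Fld H)

theorem int_p : IsIntegral ℤ D.p := by
  refine ⟨Polynomial.X ^ 3 - Polynomial.X - 1, ?_, ?_⟩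
  · monicity!
  · simp [D.hp]

theorem int_q : IsIntegral ℤ D.q := by
  rw [← D.σp]
  exact (int_p D).map (D.σ : H →+* H).toIntAlgHom

theorem V.int_val (v : V) : IsIntegral ℤ (v.val D) := by
  have hp := int_p D
  have hq := int_q D
  have hz : ∀ n : ℤ, IsIntegral ℤ (n : H) := fun n => isIntegral_algebraMap (R := ℤ) (x := n)
  unfold V.val
  exact (((((hz _).add ((hz _).mul hp)).add ((hz _).mul (hp.pow 2))).add ((hz _).mul hq)).add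
    ((hz _).mul (hp.mul hq))).add ((hz _).mul ((hp.pow 2).mul hq))

/-- units modulo `2` -/
theorem unit_of (v v0 r u0 v' : V)
    (hv : v = ⟨v0.a + 2 * v'.a, v0.b + 2 * v'.b, v0.c + 2 * v'.c, v0.d + 2 * v'.d,
      v0.e + 2 * v'.e, v0.f + 2 * v'.f⟩)
    (h0 : r.mul v0 = ⟨1 + 2 * u0.a, 2 * u0.b, 2 * u0.c, 2 * u0.d, 2 * u0.e, 2 * u0.f⟩) :
    ∃ s u : H, IsIntegral ℤ s ∧ IsIntegral ℤ u ∧ s * v.val D = 1 + 2 * u := by
  refine ⟨r.val D, u0.val D + r.val D * v'.val D, r.int_val D,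
    (u0.int_val D).add ((r.int_val D).mul (v'.int_val D)), ?_⟩
  have e1 : v.val D = v0.val D + 2 * v'.val D := by
    rw [hv]
    simp only [V.val]
    push_cast
    ring
  have e2 : r.val D * v0.val D = 1 + 2 * u0.val D := by
    rw [← V.val_mul, h0]
    simp only [V.val]
    push_cast
    ring
  rw [e1]
  linear_combination e2

theorem g000_unit {x y z t : ℤ} (h : Res x y z t) :
    ∃ s u : H, IsIntegral ℤ s ∧ IsIntegral ℤ u ∧ s * (g000 x y z t).val D = 1 + 2 * u := by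
  obtain ⟨h1, h2, h3, h4, h5, h6⟩ := g000_par h
  obtain ⟨a, ha⟩ := odd_of h1
  obtain ⟨b, hb⟩ := odd_of h2
  obtain ⟨c, hc⟩ := odd_of h3
  obtain ⟨d, hd⟩ := odd_of h4
  obtain ⟨e, he⟩ := even_of h5
  obtain ⟨f, hf⟩ := odd_of h6
  refine unit_of D (g000 x y z t) ⟨1, 1, 1, 1, 0, 1⟩ ⟨1, 1, 0, 1, 1, 1⟩ ⟨0, 0, 0, 1, 1, 1⟩ ⟨a, b, c, d, e, f⟩ ?_ ?_
  · ext
    exacts [ha, hb, hc, hd, he, hf]
  · ext <;> rfl

theorem adjV_unit {x y z t : ℤ} (h : Res x y z t) :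
    ∃ s u : H, IsIntegral ℤ s ∧ IsIntegral ℤ u ∧ s * (adjV x y z t).val D = 1 + 2 * u := by
  rcases adjV_par h with ⟨h1, h2, h3, h4, h5, h6⟩ | ⟨h1, h2, h3, h4, h5, h6⟩
  · obtain ⟨a, ha⟩ := even_of h1
    obtain ⟨b, hb⟩ := odd_of h2
    obtain ⟨c, hc⟩ := even_of h3
    obtain ⟨d, hd⟩ := odd_of h4
    obtain ⟨e, he⟩ := odd_of h5
    obtain ⟨f, hf⟩ := even_of h6
    refine unit_of D (adjV x y z t) ⟨0, 1, 0, 1, 1, 0⟩ ⟨1, 0, 0, 0, 1, 0⟩ ⟨-1, 0, 0, 0, 0, 0⟩ ⟨a, b, c, d, e, f⟩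
      ?_ ?_
    · ext
      exacts [ha, hb, hc, hd, he, hf]
    · ext <;> rfl
  · obtain ⟨a, ha⟩ := odd_of h1
    obtain ⟨b, hb⟩ := even_of h2
    obtain ⟨c, hc⟩ := even_of h3
    obtain ⟨d, hd⟩ := even_of h4
    obtain ⟨e, he⟩ := odd_of h5
    obtain ⟨f, hf⟩ := even_of h6
    refine unit_of D (adjV x y z t) ⟨1, 0, 0, 0, 1, 0⟩ ⟨0, 1, 0, 1, 1, 0⟩ ⟨-1, 0, 0, 0, 0, 0⟩ ⟨a, b, c, d, e, f⟩
      ?_ ?_
    · ext
      exacts [ha, hb, hc, hd, he, hf]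
    · ext <;> rfl

/-- `1 + 2u` is not zero -/
theorem one_add_two_ne [CharZero H] (u : H) (hu : IsIntegral ℤ u) : 1 + 2 * u ≠ 0 := by
  intro h
  have h1 : u = algebraMap ℚ H (-1 / 2) := by
    have : (algebraMap ℚ H) (-1 / 2) = -1 / 2 := by
      simp
    rw [this]
    linear_combination (1 / 2 : H) * h
  rw [h1] at hu
  have h2 : IsIntegral ℤ (-1 / 2 : ℚ) := (isIntegral_algebraMap_iff (algebraMap ℚ H).injective).1 hu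
  obtain ⟨n, hn⟩ := IsIntegrallyClosed.isIntegral_iff.1 h2
  have h3 : ((2 * n : ℤ) : ℚ) = ((-1 : ℤ) : ℚ) := by
    push_cast
    have : (algebraMap ℤ ℚ) n = (n : ℚ) := rfl
    rw [this] at hn
    rw [hn]
    norm_num
  have h4 : (2 * n : ℤ) = -1 := by exact_mod_cast h3
  omega

end Pool.Agent.E8helper69.CB
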