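import Mathlib

/-!
# CB (helper69): statements of the pieces for `MP_3a7aac_nt`

The cubic surface `F = 0` has no rational point.  `H` is the splitting field of `X^3 - X - 1`
(degree `6`, discriminant `-23^3`, class number one).
-/

set_option autoImplicit false

namespace Pool.Agent.E8helper69.CB

open NumberField

/-- `H` is the splitting field of `X^3 - X - 1`, with two roots `p`, `q` (the third one is
`-p - q`), and the automorphisms `σ = (p → q → -p-q → p)` and `τ = (p ↔ q)`. -/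
structure Fld (H : Type) [Field H] where
  p : H
  q : H
  σ : H ≃+* H
  τ : H ≃+* H
  hp : p ^ 3 = p + 1
  hq : q ^ 2 + p * q + p ^ 2 = 1
  σp : σ p = q
  σq : σ q = -p - q
  τp : τ p = q
  τq : τ q = p

/-- FLD: the field exists (with the basis `1, p, p², q, pq, p²q` over `ℚ`) -/
def S_FLD : Prop := ∃ (H : Type) (_ : Field H) (_ : NumberField H) (D : Fld H),
  Module.finrank ℚ H = 6 ∧
  ∀ u : H, ∃ c : Fin 6 → ℚ, u = (c 0 : H) + c 1 * D.p + c 2 * D.p ^ 2 + c 3 * D.q +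
    c 4 * (D.p * D.q) + c 5 * (D.p ^ 2 * D.q)

/-- PID: class number one -/
def S_PID : Prop := ∀ (H : Type) [Field H] [NumberField H] (D : Fld H),
  Module.finrank ℚ H = 6 →
  (∀ u : H, ∃ c : Fin 6 → ℚ, u = (c 0 : H) + c 1 * D.p + c 2 * D.p ^ 2 + c 3 * D.q +
    c 4 * (D.p * D.q) + c 5 * (D.p ^ 2 * D.q)) →
  IsPrincipalIdealRing (𝓞 H)

/-- NRM: the norms -/
def S_NRM : Prop := ∀ (H : Type) [Field H] [NumberField H] (D : Fld H),
  (∀ u : H, ∃ c : Fin 6 → ℚ, u = (c 0 : H) + c 1 * D.p + c 2 * D.p ^ 2 + c 3 * D.q +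
    c 4 * (D.p * D.q) + c 5 * (D.p ^ 2 * D.q)) →
  ∀ (μ ν ρ : H) (k l : ℕ), IsIntegral ℤ μ → IsIntegral ℤ ν → IsIntegral ℤ ρ →
    D.σ μ = μ → μ = (-D.p + D.p ^ 2 - D.q) * ν → ν * ρ = 23 ^ k * 9013 ^ l → False

/-- LIN: linear algebra over the principal ideal ring -/
def S_LIN : Prop := ∀ (H : Type) [Field H] [NumberField H] [IsPrincipalIdealRing (𝓞 H)]
  (D : Fld H) (M : Matrix (Fin 3) (Fin 3) H) (G : Fin 3 → Fin 3 → Fin 3 → H),
  (∀ u, D.σ (D.σ (D.σ u)) = u) → M.det = 0 → M.adjugate ≠ 0 →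
  (∀ i b c, ∑ a, M i a * G a b c = 0) → (∀ a b c, D.σ (G a b c) = G c a b) →
  (∃ a b c, G a b c ≠ 0) →
  ∃ (w : Fin 3 → H) (μ : H), (∀ a, IsIntegral ℤ (w a)) ∧
    (∃ r : Fin 3 → H, (∀ a, IsIntegral ℤ (r a)) ∧ ∑ a, r a * w a = 1) ∧ D.σ μ = μ ∧
    ∀ a b c, G a b c = μ * (w a * D.σ (w b) * D.σ (D.σ (w c)))

end Pool.Agent.E8helper69.CB
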