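import Pool.Agent.E8helper69.CB.I00
import Pool.Agent.E8helper69.CB.I01
import Pool.Agent.E8helper69.CB.I02
import Pool.Agent.E8helper69.CB.I10
import Pool.Agent.E8helper69.CB.I11
import Pool.Agent.E8helper69.CB.I12
import Pool.Agent.E8helper69.CB.I20
import Pool.Agent.E8helper69.CB.I21
import Pool.Agent.E8helper69.CB.I22
import Pool.Agent.E8helper69.CB.C0
import Pool.Agent.E8helper69.CB.C1
import Pool.Agent.E8helper69.CB.C2
import Pool.Agent.E8helper69.CB.C3
import Pool.Agent.E8helper69.CB.Equiv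
import Pool.Agent.E8helper69.CB.Par
import Pool.Agent.E8helper9.CB.Lin
import Pool.Agent.E8helper10.CB.Nrm
import Pool.Agent.E8helper73.CB.Fld
import Pool.Agent.E8helper87.CB.Pid

/-!
# CB: the cubic surface `F = 0` has no rational point
-/

set_option autoImplicit false

namespace Pool.Agent.E8helper69.CB

open NumberField

/-- the matrix of linear forms -/
def mm (i j : Fin 3) (x y z t : ℤ) : V :=
  match i, j with
  | 0, 0 => m00 x y z t
  | 0, 1 => m01 x y z t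
  | 0, 2 => m02 x y z t
  | 1, 0 => m10 x y z t
  | 1, 1 => m11 x y z t
  | 1, 2 => m12 x y z t
  | 2, 0 => m20 x y z t
  | 2, 1 => m21 x y z t
  | 2, 2 => m22 x y z t

/-- the cubic forms -/
def gg (a b c : Fin 3) (x y z t : ℤ) : V :=
  match a, b, c with
  | 0, 0, 0 => g000 x y z t
  | 0, 0, 1 => g001 x y z t
  | 0, 0, 2 => g002 x y z t
  | 0, 1, 0 => g010 x y z t
  | 0, 1, 1 => g011 x y z t
  | 0, 1, 2 => g012 x y z t
  | 0, 2, 0 => g020 x y z t
  | 0, 2, 1 => g021 x y z t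
  | 0, 2, 2 => g022 x y z t
  | 1, 0, 0 => g100 x y z t
  | 1, 0, 1 => g101 x y z t
  | 1, 0, 2 => g102 x y z t
  | 1, 1, 0 => g110 x y z t
  | 1, 1, 1 => g111 x y z t
  | 1, 1, 2 => g112 x y z t
  | 1, 2, 0 => g120 x y z t
  | 1, 2, 1 => g121 x y z t
  | 1, 2, 2 => g122 x y z t
  | 2, 0, 0 => g200 x y z t
  | 2, 0, 1 => g201 x y z t
  | 2, 0, 2 => g202 x y z t
  | 2, 1, 0 => g210 x y z t
  | 2, 1, 1 => g211 x y z t
  | 2, 1, 2 => g212 x y z t
  | 2, 2, 0 => g220 x y z t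
  | 2, 2, 1 => g221 x y z t
  | 2, 2, 2 => g222 x y z t

theorem gg_ker {x y z t : ℤ} (hF : F x y z t = 0) (i b c : Fin 3) :
    V.add3 ((mm i 0 x y z t).mul (gg 0 b c x y z t)) ((mm i 1 x y z t).mul (gg 1 b c x y z t))
      ((mm i 2 x y z t).mul (gg 2 b c x y z t)) = ⟨0, 0, 0, 0, 0, 0⟩ := by
  have h0 : ∀ v : V, V.smul (F x y z t) v = ⟨0, 0, 0, 0, 0, 0⟩ := by
    intro v
    rw [hF]
    simp [V.smul]
  fin_cases i <;> fin_cases b <;> fin_cases c
  · exact (i1_000 x y z t).trans (h0 _)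
  · exact (i1_001 x y z t).trans (h0 _)
  · exact (i1_002 x y z t).trans (h0 _)
  · exact (i1_010 x y z t).trans (h0 _)
  · exact (i1_011 x y z t).trans (h0 _)
  · exact (i1_012 x y z t).trans (h0 _)
  · exact (i1_020 x y z t).trans (h0 _)
  · exact (i1_021 x y z t).trans (h0 _)
  · exact (i1_022 x y z t).trans (h0 _)
  · exact (i1_100 x y z t).trans (h0 _)
  · exact (i1_101 x y z t).trans (h0 _)
  · exact (i1_102 x y z t).trans (h0 _)
  · exact (i1_110 x y z t).trans (h0 _)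
  · exact (i1_111 x y z t).trans (h0 _)
  · exact (i1_112 x y z t).trans (h0 _)
  · exact (i1_120 x y z t).trans (h0 _)
  · exact (i1_121 x y z t).trans (h0 _)
  · exact (i1_122 x y z t).trans (h0 _)
  · exact (i1_200 x y z t).trans (h0 _)
  · exact (i1_201 x y z t).trans (h0 _)
  · exact (i1_202 x y z t).trans (h0 _)
  · exact (i1_210 x y z t).trans (h0 _)
  · exact (i1_211 x y z t).trans (h0 _)
  · exact (i1_212 x y z t).trans (h0 _)
  · exact (i1_220 x y z t).trans (h0 _)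
  · exact (i1_221 x y z t).trans (h0 _)
  · exact (i1_222 x y z t).trans (h0 _)

theorem gg_sig (a b c : Fin 3) (x y z t : ℤ) :
    (piV.mul (gg a b c x y z t)).sig = piV.mul (gg c a b x y z t) := by
  fin_cases a <;> fin_cases b <;> fin_cases c
  · exact i2_000 x y z t
  · exact i2_001 x y z t
  · exact i2_002 x y z t
  · exact i2_010 x y z t
  · exact i2_011 x y z t
  · exact i2_012 x y z t
  · exact i2_020 x y z t
  · exact i2_021 x y z t
  · exact i2_022 x y z t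
  · exact i2_100 x y z t
  · exact i2_101 x y z t
  · exact i2_102 x y z t
  · exact i2_110 x y z t
  · exact i2_111 x y z t
  · exact i2_112 x y z t
  · exact i2_120 x y z t
  · exact i2_121 x y z t
  · exact i2_122 x y z t
  · exact i2_200 x y z t
  · exact i2_201 x y z t
  · exact i2_202 x y z t
  · exact i2_210 x y z t
  · exact i2_211 x y z t
  · exact i2_212 x y z t
  · exact i2_220 x y z t
  · exact i2_221 x y z t
  · exact i2_222 x y z t

theorem cert0 {x y z t : ℤ} (hF : F x y z t = 0) : ∃ C : Fin 3 → Fin 3 → Fin 3 → V,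
    ∀ (H : Type) [Field H] (D : Fld H),
      ∑ a, ∑ b, ∑ c, (C a b c).val D * (gg a b c x y z t).val D = 438644684 * ((x : ℤ) : H) ^ 3 := by
  refine ⟨fun a b c => match a, b, c with
    | 0, 0, 0 => c0_000
    | 0, 0, 1 => c0_001
    | 0, 0, 2 => c0_002
    | 0, 1, 0 => c0_010
    | 0, 1, 1 => c0_011
    | 0, 1, 2 => c0_012
    | 0, 2, 0 => c0_020
    | 0, 2, 1 => c0_021
    | 0, 2, 2 => c0_022
    | 1, 0, 0 => c0_100
    | 1, 0, 1 => c0_101
    | 1, 0, 2 => c0_102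
    | 1, 1, 0 => c0_110
    | 1, 1, 1 => c0_111
    | 1, 1, 2 => c0_112
    | 1, 2, 0 => c0_120
    | 1, 2, 1 => c0_121
    | 1, 2, 2 => c0_122
    | 2, 0, 0 => c0_200
    | 2, 0, 1 => c0_201
    | 2, 0, 2 => c0_202
    | 2, 1, 0 => c0_210
    | 2, 1, 1 => c0_211
    | 2, 1, 2 => c0_212
    | 2, 2, 0 => c0_220
    | 2, 2, 1 => c0_221
    | 2, 2, 2 => c0_222, ?_⟩
  intro H _ D
  have h := congrArg (V.val D) (i3_0 x y z t)
  simp only [V.val_add3, V.val_mul] at h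
  simp only [Fin.sum_univ_three]
  refine h.trans ?_
  rw [hF]
  simp only [V.val]
  push_cast
  ring

theorem cert1 {x y z t : ℤ} (hF : F x y z t = 0) : ∃ C : Fin 3 → Fin 3 → Fin 3 → V,
    ∀ (H : Type) [Field H] (D : Fld H),
      ∑ a, ∑ b, ∑ c, (C a b c).val D * (gg a b c x y z t).val D = 438644684 * ((y : ℤ) : H) ^ 3 := by
  refine ⟨fun a b c => match a, b, c with
    | 0, 0, 0 => c1_000
    | 0, 0, 1 => c1_001
    | 0, 0, 2 => c1_002
    | 0, 1, 0 => c1_010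
    | 0, 1, 1 => c1_011
    | 0, 1, 2 => c1_012
    | 0, 2, 0 => c1_020
    | 0, 2, 1 => c1_021
    | 0, 2, 2 => c1_022
    | 1, 0, 0 => c1_100
    | 1, 0, 1 => c1_101
    | 1, 0, 2 => c1_102
    | 1, 1, 0 => c1_110
    | 1, 1, 1 => c1_111
    | 1, 1, 2 => c1_112
    | 1, 2, 0 => c1_120
    | 1, 2, 1 => c1_121
    | 1, 2, 2 => c1_122
    | 2, 0, 0 => c1_200
    | 2, 0, 1 => c1_201
    | 2, 0, 2 => c1_202
    | 2, 1, 0 => c1_210
    | 2, 1, 1 => c1_211
    | 2, 1, 2 => c1_212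
    | 2, 2, 0 => c1_220
    | 2, 2, 1 => c1_221
    | 2, 2, 2 => c1_222, ?_⟩
  intro H _ D
  have h := congrArg (V.val D) (i3_1 x y z t)
  simp only [V.val_add3, V.val_mul] at h
  simp only [Fin.sum_univ_three]
  refine h.trans ?_
  rw [hF]
  simp only [V.val]
  push_cast
  ring

theorem cert2 {x y z t : ℤ} (hF : F x y z t = 0) : ∃ C : Fin 3 → Fin 3 → Fin 3 → V,
    ∀ (H : Type) [Field H] (D : Fld H),
      ∑ a, ∑ b, ∑ c, (C a b c).val D * (gg a b c x y z t).val D = 438644684 * ((z : ℤ) : H) ^ 3 := by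
  refine ⟨fun a b c => match a, b, c with
    | 0, 0, 0 => c2_000
    | 0, 0, 1 => c2_001
    | 0, 0, 2 => c2_002
    | 0, 1, 0 => c2_010
    | 0, 1, 1 => c2_011
    | 0, 1, 2 => c2_012
    | 0, 2, 0 => c2_020
    | 0, 2, 1 => c2_021
    | 0, 2, 2 => c2_022
    | 1, 0, 0 => c2_100
    | 1, 0, 1 => c2_101
    | 1, 0, 2 => c2_102
    | 1, 1, 0 => c2_110
    | 1, 1, 1 => c2_111
    | 1, 1, 2 => c2_112
    | 1, 2, 0 => c2_120
    | 1, 2, 1 => c2_121
    | 1, 2, 2 => c2_122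
    | 2, 0, 0 => c2_200
    | 2, 0, 1 => c2_201
    | 2, 0, 2 => c2_202
    | 2, 1, 0 => c2_210
    | 2, 1, 1 => c2_211
    | 2, 1, 2 => c2_212
    | 2, 2, 0 => c2_220
    | 2, 2, 1 => c2_221
    | 2, 2, 2 => c2_222, ?_⟩
  intro H _ D
  have h := congrArg (V.val D) (i3_2 x y z t)
  simp only [V.val_add3, V.val_mul] at h
  simp only [Fin.sum_univ_three]
  refine h.trans ?_
  rw [hF]
  simp only [V.val]
  push_cast
  ring

theorem cert3 {x y z t : ℤ} (hF : F x y z t = 0) : ∃ C : Fin 3 → Fin 3 → Fin 3 → V,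
    ∀ (H : Type) [Field H] (D : Fld H),
      ∑ a, ∑ b, ∑ c, (C a b c).val D * (gg a b c x y z t).val D = 438644684 * ((t : ℤ) : H) ^ 3 := by
  refine ⟨fun a b c => match a, b, c with
    | 0, 0, 0 => c3_000
    | 0, 0, 1 => c3_001
    | 0, 0, 2 => c3_002
    | 0, 1, 0 => c3_010
    | 0, 1, 1 => c3_011
    | 0, 1, 2 => c3_012
    | 0, 2, 0 => c3_020
    | 0, 2, 1 => c3_021
    | 0, 2, 2 => c3_022
    | 1, 0, 0 => c3_100
    | 1, 0, 1 => c3_101
    | 1, 0, 2 => c3_102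
    | 1, 1, 0 => c3_110
    | 1, 1, 1 => c3_111
    | 1, 1, 2 => c3_112
    | 1, 2, 0 => c3_120
    | 1, 2, 1 => c3_121
    | 1, 2, 2 => c3_122
    | 2, 0, 0 => c3_200
    | 2, 0, 1 => c3_201
    | 2, 0, 2 => c3_202
    | 2, 1, 0 => c3_210
    | 2, 1, 1 => c3_211
    | 2, 1, 2 => c3_212
    | 2, 2, 0 => c3_220
    | 2, 2, 1 => c3_221
    | 2, 2, 2 => c3_222, ?_⟩
  intro H _ D
  have h := congrArg (V.val D) (i3_3 x y z t)
  simp only [V.val_add3, V.val_mul] at h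
  simp only [Fin.sum_univ_three]
  refine h.trans ?_
  rw [hF]
  simp only [V.val]
  push_cast
  ring

end Pool.Agent.E8helper69.CB
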