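import Pool.Agent.E8helper69.CB.Stm

/-!
# CB: coordinates
-/

set_option autoImplicit false

namespace Pool.Agent.E8helper69.CB

/-- six integer coordinates in the basis `1, p, p², q, pq, p²q` -/
@[ext] structure V where
  a : ℤ
  b : ℤ
  c : ℤ
  d : ℤ
  e : ℤ
  f : ℤ

namespace V

/-- the product -/
def mul (u v : V) : V :=
  ⟨u.a * v.a + u.b * v.c + u.c * v.b + u.d * v.d - u.d * v.e - u.e * v.d - u.f * v.f,
   u.a * v.b + u.b * v.a + u.b * v.c + u.c * v.b + u.c * v.c - u.d * v.f - u.e * v.e - u.f * v.d - u.f * v.f,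
   u.a * v.c + u.b * v.b + u.c * v.a + u.c * v.c - u.d * v.d - u.e * v.f - u.f * v.e,
   u.a * v.d + u.b * v.f + u.c * v.e + u.d * v.a - u.d * v.f + u.e * v.c - u.e * v.e + u.f * v.b - u.f * v.d - u.f * v.f,
   u.a * v.e + u.b * v.d + u.b * v.f + u.c * v.e + u.c * v.f + u.d * v.b - u.d * v.d - u.d * v.f + u.e * v.a + u.e * v.c - u.e * v.e - u.e * v.f + u.f * v.b + u.f * v.c - u.f * v.d - u.f * v.e - u.f * v.f,
   u.a * v.f + u.b * v.e + u.c * v.d + u.c * v.f + u.d * v.c - u.d * v.e + u.e * v.b - u.e * v.d - u.e * v.f + u.f * v.a + u.f * v.c - u.f * v.e - u.f * v.f⟩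

/-- the automorphism `σ` -/
def sig (v : V) : V :=
  ⟨v.a + v.c - v.e, -v.d, -v.c + v.e, v.b - v.d - v.f, -v.c, v.f⟩

/-- the sum of three elements -/
def add3 (u v w : V) : V :=
  ⟨u.a + v.a + w.a, u.b + v.b + w.b, u.c + v.c + w.c, u.d + v.d + w.d, u.e + v.e + w.e,
    u.f + v.f + w.f⟩

/-- the multiple by an integer -/
def smul (n : ℤ) (v : V) : V := ⟨n * v.a, n * v.b, n * v.c, n * v.d, n * v.e, n * v.f⟩

variable {H : Type} [Field H] (D : Fld H)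

/-- the value in the field -/
def val (v : V) : H :=
  (v.a : H) + v.b * D.p + v.c * D.p ^ 2 + v.d * D.q + v.e * (D.p * D.q) + v.f * (D.p ^ 2 * D.q)

theorem val_mul (u v : V) : (u.mul v).val D = u.val D * v.val D := by
  have hp := D.hp
  have hq := D.hq
  simp only [val, mul]
  push_cast
  linear_combination (exp := 1) (-(((1)*((u.b:H)*(v.c:H)) + (1)*((u.c:H)*(v.b:H)) + (1)*((u.e:H)*(v.f:H)) + (1)*((u.f:H)*(v.e:H)) + (-1)*((u.d:H)*(v.e:H)) + (-1)*((u.e:H)*(v.d:H)) + (-1)*((u.f:H)*(v.f:H)) + (-1)*((u.e:H)*(v.f:H)) + (-1)*((u.f:H)*(v.e:H)))*D.p^0 + ((1)*((u.c:H)*(v.c:H)) + (1)*((u.f:H)*(v.f:H)) + (-1)*((u.d:H)*(v.f:H)) + (-1)*((u.e:H)*(v.e:H)) + (-1)*((u.f:H)*(v.d:H)) + (-1)*((u.f:H)*(v.f:H)))*D.p^1 + ((-1)*((u.e:H)*(v.f:H)) + (-1)*((u.f:H)*(v.e:H)))*D.p^2 + ((-1)*((u.f:H)*(v.f:H)))*D.p^3) - (((1)*((u.b:H)*(v.f:H)) + (1)*((u.c:H)*(v.e:H)) + (1)*((u.e:H)*(v.c:H))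 + (1)*((u.f:H)*(v.b:H)) + (-1)*((u.d:H)*(v.f:H)) + (-1)*((u.e:H)*(v.e:H)) + (-1)*((u.f:H)*(v.d:H)) + (-1)*((u.f:H)*(v.f:H)))*D.p^0 + ((1)*((u.c:H)*(v.f:H)) + (1)*((u.f:H)*(v.c:H)) + (-1)*((u.e:H)*(v.f:H)) + (-1)*((u.f:H)*(v.e:H)))*D.p^1 + ((-1)*((u.f:H)*(v.f:H)))*D.p^2) * D.q) * hp - (((1)*((u.d:H)*(v.d:H)))*D.p^0 + ((1)*((u.d:H)*(v.e:H)) + (1)*((u.e:H)*(v.d:H)))*D.p^1 + ((1)*((u.d:H)*(v.f:H)) + (1)*((u.e:H)*(v.e:H)) + (1)*((u.f:H)*(v.d:H)))*D.p^2 + ((1)*((u.e:H)*(v.f:H)) + (1)*((u.f:H)*(v.e:H)))*D.p^3 + ((1)*((u.f:H)*(v.f:H)))*D.p^4) * hq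

theorem val_sig (v : V) : (v.sig).val D = D.σ (v.val D) := by
  have hp := D.hp
  have hq := D.hq
  simp only [val, sig, map_add, map_mul, map_pow, map_intCast, D.σp, D.σq]
  push_cast
  linear_combination (-(v.c : H) + v.e + v.f * D.q) * hq

theorem val_add3 (u v w : V) : (add3 u v w).val D = u.val D + v.val D + w.val D := by
  simp only [val, add3]
  push_cast
  ring

theorem val_smul (n : ℤ) (v : V) : (smul n v).val D = n * v.val D := by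
  simp only [val, smul]
  push_cast
  ring

end V

end Pool.Agent.E8helper69.CB
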