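import Pool.Agent.E8helper69.CB.Base

/-!
# CB: the matrix of linear forms and the cubic forms
-/

set_option autoImplicit false
set_option linter.unusedVariables false

namespace Pool.Agent.E8helper69.CB

/-- the cubic form -/
def F (x y z t : ℤ) : ℤ :=
  x ^ 3 + 2 * x ^ 2 * y + y ^ 3 + y ^ 2 * z + x * z ^ 2 + z ^ 3 + t ^ 2 * x - t ^ 2 * y - t ^ 2 * z
    + t * y * z + t ^ 3

/-- entry (0, 0) of the matrix -/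
def m00 (x y z t : ℤ) : V :=
  ⟨13 * x + 2 * y + 23 * z,
   12 * x - 7 * y + 23 * t,
   -8 * x - 3 * y,
   0,
   0,
   0⟩

/-- entry (0, 1) of the matrix -/
def m01 (x y z t : ℤ) : V :=
  ⟨22 * x + 16 * y,
   38 * x + 36 * y,
   -33 * x - 24 * y,
   2 * x - 24 * y,
   -7 * x - 8 * y,
   -3 * x + 36 * y⟩

/-- entry (0, 2) of the matrix -/
def m02 (x y z t : ℤ) : V :=
  ⟨11 * x - 28 * y,
   19 * x - 17 * y,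
   -5 * x + 19 * y,
   -x + 18 * y,
   15 * x + 6 * y,
   13 * x - 27 * y⟩

/-- entry (1, 0) of the matrix -/
def m10 (x y z t : ℤ) : V :=
  ⟨-2 * x + 7 * y,
   -2 * x + 4 * y,
   -3 * x - 3 * y,
   7 * x + 7 * y,
   4 * x + 6 * y,
   -3 * x + 6 * y⟩

/-- entry (1, 1) of the matrix -/
def m11 (x y z t : ℤ) : V :=
  ⟨5 * x - y + 23 * z,
   0,
   8 * x + 3 * y,
   12 * x - 7 * y + 23 * t,
   8 * x + 3 * y,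
   0⟩

/-- entry (1, 2) of the matrix -/
def m12 (x y z t : ℤ) : V :=
  ⟨-21 * x + 21 * y,
   -x + 15 * y,
   24 * x - 7 * y,
   36 * x + y,
   39 * x + 21 * y,
   -13 * x - 12 * y⟩

/-- entry (2, 0) of the matrix -/
def m20 (x y z t : ℤ) : V :=
  ⟨-7 * x - 8 * y,
   -9 * x - 9 * y,
   -8 * y,
   -12 * x - 2 * y,
   -3 * x - 13 * y,
   -7 * x - 17 * y⟩

/-- entry (2, 1) of the matrix -/
def m21 (x y z t : ℤ) : V :=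
  ⟨-2 * x - 3 * y,
   -8 * x + 3 * y,
   2 * x - y,
   -9 * x + 8 * y,
   -4 * x + y,
   6 * x - 4 * y⟩

/-- entry (2, 2) of the matrix -/
def m22 (x y z t : ℤ) : V :=
  ⟨5 * x - y + 23 * z,
   -12 * x + 7 * y - 23 * t,
   0,
   -12 * x + 7 * y - 23 * t,
   -8 * x - 3 * y,
   0⟩

/-- the cubic form (0, 0, 0) -/
def g000 (x y z t : ℤ) : V :=
  ⟨212 * x ^ 3 + 383 * x ^ 2 * y - 37 * x ^ 2 * z - 48 * x ^ 2 * t + 6 * x * y ^ 2 - 7 * x * y * z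
    + 68 * x * y * t + 192 * y ^ 3 + 116 * y ^ 2 * z - 36 * y ^ 2 * t,
   212 * x ^ 3 + 383 * x ^ 2 * y - 37 * x ^ 2 * z - 48 * x ^ 2 * t + 6 * x * y ^ 2 - 7 * x * y * z
    + 68 * x * y * t + 192 * y ^ 3 + 116 * y ^ 2 * z - 36 * y ^ 2 * t,
   -73 * x ^ 3 - 150 * x ^ 2 * y + 71 * x ^ 2 * z + 43 * x ^ 2 * t - 60 * x * y ^ 2 - 22 * x * y *
    z + 56 * x * y * t - 80 * y ^ 3 - 56 * y ^ 2 * z - 8 * y ^ 2 * t,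
   73 * x ^ 3 + 150 * x ^ 2 * y - 71 * x ^ 2 * z - 43 * x ^ 2 * t + 60 * x * y ^ 2 + 22 * x * y * z
    - 56 * x * y * t + 80 * y ^ 3 + 56 * y ^ 2 * z + 8 * y ^ 2 * t,
   139 * x ^ 3 + 233 * x ^ 2 * y + 34 * x ^ 2 * z - 5 * x ^ 2 * t - 54 * x * y ^ 2 - 29 * x * y * z
    + 124 * x * y * t + 112 * y ^ 3 + 60 * y ^ 2 * z - 44 * y ^ 2 * t,
   73 * x ^ 3 + 150 * x ^ 2 * y - 71 * x ^ 2 * z - 43 * x ^ 2 * t + 60 * x * y ^ 2 + 22 * x * y * z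
    - 56 * x * y * t + 80 * y ^ 3 + 56 * y ^ 2 * z + 8 * y ^ 2 * t⟩

/-- the cubic form (0, 0, 1) -/
def g001 (x y z t : ℤ) : V :=
  ⟨-54 * x ^ 3 - 85 * x ^ 2 * y - 75 * x ^ 2 * z - 132 * x ^ 2 * t + 44 * x * y ^ 2 - 155 * x * y *
    z - 368 * x * y * t - 98 * x * z ^ 2 - 32 * x * z * t + 96 * x * t ^ 2 + 72 * y ^ 3 + 3 * y
    ^ 2 * z - 146 * y ^ 2 * t - 8 * y * z ^ 2 - 58 * y * z * t + 13 * y * t ^ 2,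
   -89 * x ^ 3 - 34 * x ^ 2 * y - 41 * x ^ 2 * z - 138 * x ^ 2 * t + 203 * x * y ^ 2 - 44 * x * y *
    z - 230 * x * y * t - 2 * x * z ^ 2 + 66 * x * z * t + 32 * x * t ^ 2 - 53 * y ^ 3 + 147 * y
    ^ 2 * z + 29 * y ^ 2 * t + 5 * y * z ^ 2 - 50 * y * z * t + 58 * y * t ^ 2,
   74 * x ^ 3 + 54 * x ^ 2 * y + 114 * x ^ 2 * z + 76 * x ^ 2 * t - 70 * x * y ^ 2 + 290 * x * y *
    z + 230 * x * y * t + 32 * x * z ^ 2 + 2 * x * z * t - 98 * x * t ^ 2 + 25 * y ^ 3 + 35 * y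
    ^ 2 * z + 4 * y ^ 2 * t + 58 * y * z ^ 2 - 5 * y * z * t - 8 * y * t ^ 2,
   4 * x ^ 3 + 63 * x ^ 2 * y + 147 * x ^ 2 * z - x ^ 2 * t - 10 * x * y ^ 2 + 128 * x * y * z +
    219 * x * y * t + 71 * x * z ^ 2 + 72 * x * z * t - 78 * x * t ^ 2 - 28 * y ^ 3 + 125 * y ^
    2 * z + 13 * y ^ 2 * t + 41 * y * z ^ 2 - 19 * y * z * t + 11 * y * t ^ 2,
   2 * x ^ 3 - 41 * x ^ 2 * y - 7 * x ^ 2 * z + 8 * x ^ 2 * t - 84 * x * y ^ 2 + 127 * x * y * z +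
    73 * x * y * t - 7 * x * z ^ 2 + x * z * t - 72 * x * t ^ 2 + 70 * y ^ 3 + 39 * y ^ 2 * z -
    134 * y ^ 2 * t + 52 * y * z ^ 2 - 60 * y * z * t + 19 * y * t ^ 2,
   -42 * x ^ 3 - 93 * x ^ 2 * y - 129 * x ^ 2 * z - 69 * x ^ 2 * t + 116 * x * y ^ 2 - 123 * x * y
    * z - 294 * x * y * t - 72 * x * z ^ 2 + 7 * x * z * t + 71 * x * t ^ 2 + 13 * y ^ 3 + 106 *
    y ^ 2 * z - 59 * y ^ 2 * t + 19 * y * z ^ 2 - 52 * y * z * t + 41 * y * t ^ 2⟩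

/-- the cubic form (0, 0, 2) -/
def g002 (x y z t : ℤ) : V :=
  ⟨35 * x ^ 3 + 12 * x ^ 2 * y + 4 * x ^ 2 * z + 28 * x ^ 2 * t - 93 * x * y ^ 2 + 109 * x * y * z
    + 30 * x * y * t + 19 * x * z ^ 2 + 17 * x * z * t + 41 * x * t ^ 2 + 8 * y ^ 3 - 48 * y ^ 2
    * z + 20 * y ^ 2 * t + 52 * y * z ^ 2 + 124 * y * z * t - 4 * y * t ^ 2,
   -9 * x ^ 3 - 20 * x ^ 2 * y - 94 * x ^ 2 * z + 25 * x ^ 2 * t + 8 * x * y ^ 2 + 42 * x * y * z -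
    79 * x * y * t - 78 * x * z ^ 2 - 94 * x * z * t + 98 * x * t ^ 2 - 44 * y ^ 3 - 4 * y ^ 2 *
    z - 32 * y ^ 2 * t - 44 * y * z ^ 2 - 20 * y * z * t + 60 * y * t ^ 2,
   -44 * x ^ 3 - 32 * x ^ 2 * y - 60 * x ^ 2 * z - 77 * x ^ 2 * t + 120 * x * y ^ 2 - 112 * x * y *
    t - 40 * x * z ^ 2 - 37 * x * z * t - 73 * x * t ^ 2 - 4 * y ^ 2 * z + 96 * y ^ 2 * t + 60 *
    y * z ^ 2 - 48 * y * z * t - 132 * y * t ^ 2,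
   -44 * x ^ 3 - 32 * x ^ 2 * y - 58 * x ^ 2 * z - x ^ 2 * t + 121 * x * y ^ 2 - 34 * x * y * z -
    163 * x * y * t - 37 * x * z ^ 2 - 113 * x * z * t + 40 * x * t ^ 2 - 36 * y ^ 3 + 8 * y ^ 2
    * z + 36 * y ^ 2 * t - 48 * y * z ^ 2 - 72 * y * z * t - 60 * y * t ^ 2,
   -56 * x ^ 3 - 63 * x ^ 2 * y - 35 * x ^ 2 * z + 3 * x ^ 2 * t + 86 * x * y ^ 2 + 41 * x * y * z
    - 152 * x * y * t - 20 * x * z ^ 2 - 53 * x * z * t + 21 * x * t ^ 2 - 12 * y ^ 2 * z + 92 *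
    y ^ 2 * t + 76 * y * z ^ 2 - 24 * y * z * t - 112 * y * t ^ 2,
   -12 * x ^ 3 - 31 * x ^ 2 * y - 51 * x ^ 2 * z + 44 * x ^ 2 * t - 72 * x * y ^ 2 - x * y * z - 34
    * x * y * t - 94 * x * z ^ 2 + 20 * x * z * t + 78 * x * t ^ 2 - 12 * y ^ 3 - 4 * y ^ 2 * z
    - 24 * y ^ 2 * t - 20 * y * z ^ 2 + 16 * y * z * t + 44 * y * t ^ 2⟩

/-- the cubic form (0, 1, 0) -/
def g010 (x y z t : ℤ) : V :=
  ⟨-89 * x ^ 3 - 34 * x ^ 2 * y - 41 * x ^ 2 * z - 138 * x ^ 2 * t + 203 * x * y ^ 2 - 44 * x * y *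
    z - 230 * x * y * t - 2 * x * z ^ 2 + 66 * x * z * t + 32 * x * t ^ 2 - 53 * y ^ 3 + 147 * y
    ^ 2 * z + 29 * y ^ 2 * t + 5 * y * z ^ 2 - 50 * y * z * t + 58 * y * t ^ 2,
   -72 * x ^ 3 - 95 * x ^ 2 * y - 121 * x ^ 2 * z - 68 * x ^ 2 * t - 14 * x * y ^ 2 - 163 * x * y *
    z - 157 * x * y * t - 39 * x * z ^ 2 - x * z * t + 26 * x * t ^ 2 + 45 * y ^ 3 + 4 * y ^ 2 *
    z - 138 * y ^ 2 * t - 6 * y * z ^ 2 - 55 * y * z * t + 27 * y * t ^ 2,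
   42 * x ^ 3 + 93 * x ^ 2 * y + 129 * x ^ 2 * z + 69 * x ^ 2 * t - 116 * x * y ^ 2 + 123 * x * y *
    z + 294 * x * y * t + 72 * x * z ^ 2 - 7 * x * z * t - 71 * x * t ^ 2 - 13 * y ^ 3 - 106 * y
    ^ 2 * z + 59 * y ^ 2 * t - 19 * y * z ^ 2 + 52 * y * z * t - 41 * y * t ^ 2,
   -74 * x ^ 3 - 54 * x ^ 2 * y - 114 * x ^ 2 * z - 76 * x ^ 2 * t + 70 * x * y ^ 2 - 290 * x * y *
    z - 230 * x * y * t - 32 * x * z ^ 2 - 2 * x * z * t + 98 * x * t ^ 2 - 25 * y ^ 3 - 35 * y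
    ^ 2 * z - 4 * y ^ 2 * t - 58 * y * z ^ 2 + 5 * y * z * t + 8 * y * t ^ 2,
   -12 * x ^ 3 + 8 * x ^ 2 * y + 54 * x ^ 2 * z - 63 * x ^ 2 * t - 72 * x * y ^ 2 - 32 * x * y * z
    - 74 * x * y * t - 26 * x * z ^ 2 - 39 * x * z * t + 25 * x * t ^ 2 + 59 * y ^ 3 - 103 * y ^
    2 * z - 87 * y ^ 2 * t - 27 * y * z ^ 2 - 6 * y * z * t - 28 * y * t ^ 2,
   4 * x ^ 3 + 63 * x ^ 2 * y + 147 * x ^ 2 * z - x ^ 2 * t - 10 * x * y ^ 2 + 128 * x * y * z +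
    219 * x * y * t + 71 * x * z ^ 2 + 72 * x * z * t - 78 * x * t ^ 2 - 28 * y ^ 3 + 125 * y ^
    2 * z + 13 * y ^ 2 * t + 41 * y * z ^ 2 - 19 * y * z * t + 11 * y * t ^ 2⟩

/-- the cubic form (0, 1, 1) -/
def g011 (x y z t : ℤ) : V :=
  ⟨69 * x ^ 3 + 117 * x ^ 2 * y - 31 * x ^ 2 * z + 111 * x ^ 2 * t + 42 * x * y ^ 2 - 12 * x * y *
    z - 23 * x * y * t - 57 * x * z ^ 2 - 28 * x * z * t + 153 * x * t ^ 2 + 38 * y ^ 3 + 50 * y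
    ^ 2 * z - 103 * y ^ 2 * t - 99 * y * z ^ 2 - 22 * y * z * t + 112 * y * t ^ 2,
   -4 * x ^ 3 - 3 * x ^ 2 * y + 88 * x ^ 2 * z + 79 * x ^ 2 * t + 15 * x * y ^ 2 + 65 * x * y * z +
    69 * x * y * t + 96 * x * z ^ 2 + 29 * x * z * t + 28 * x * t ^ 2 + 12 * y ^ 3 - 21 * y ^ 2
    * z - 17 * y ^ 2 * t + 13 * y * z ^ 2 + 77 * y * z * t + 22 * y * t ^ 2,
   -37 * x ^ 3 - 35 * x ^ 2 * y - 31 * x ^ 2 * z - 100 * x ^ 2 * t - 48 * x * y ^ 2 - 28 * x * y *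
    z - 69 * x * y * t + 28 * x * z ^ 2 - 96 * x * z * t - 57 * x * t ^ 2 - 21 * y ^ 3 - 19 * y
    ^ 2 * z + 81 * y ^ 2 * t + 22 * y * z ^ 2 - 13 * y * z * t - 99 * y * t ^ 2,
   23 * x ^ 3 - 34 * x ^ 2 * y + 48 * x ^ 2 * z + 11 * x ^ 2 * t - 65 * x * y ^ 2 - 24 * x * y * z
    - 68 * x * y * t + 54 * x * z ^ 2 + 12 * x * z * t + 10 * x * t ^ 2 - 17 * y ^ 3 - 18 * y ^
    2 * z + 65 * y ^ 2 * t + 26 * y * z ^ 2 - 30 * y * z * t - 71 * y * t ^ 2,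
   5 * x ^ 3 + 45 * x ^ 2 * y + 33 * x ^ 2 * z - 22 * x ^ 2 * t + 2 * x * y ^ 2 - 54 * x * y * z +
    8 * x * y * t + 64 * x * z ^ 2 - 42 * x * z * t - 12 * x * t ^ 2 - 24 * y ^ 3 + 20 * y ^ 2 *
    z - 23 * y ^ 2 * t - 45 * y * z ^ 2 - 56 * y * z * t + 30 * y * t ^ 2,
   -17 * x ^ 3 + 22 * x ^ 2 * y - 24 * x ^ 2 * z + 24 * x ^ 2 * t + 27 * x * y ^ 2 + 82 * x * y * z
    + 10 * x * y * t - 12 * x * z ^ 2 - 64 * x * z * t + 54 * x * t ^ 2 + 38 * y ^ 3 + 3 * y ^ 2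
    * z - 20 * y ^ 2 * t + 30 * y * z ^ 2 + 45 * y * z * t + 26 * y * t ^ 2⟩

/-- the cubic form (0, 1, 2) -/
def g012 (x y z t : ℤ) : V :=
  ⟨50 * x ^ 3 + 123 * x ^ 2 * y + 4 * x ^ 2 * z - 39 * x ^ 2 * t - 13 * x * y ^ 2 - 47 * x * y * z
    - 21 * x * y * t - 64 * y ^ 3 - 48 * y ^ 2 * z - 4 * y ^ 2 * t,
   36 * x ^ 3 + 121 * x ^ 2 * y + 35 * x ^ 2 * z + 3 * x ^ 2 * t + 129 * x * y ^ 2 + 27 * x * y * z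
    - 2 * x * y * t + 24 * y ^ 3 + 24 * y ^ 2 * z - 16 * y ^ 2 * t,
   -63 * x ^ 3 - 198 * x ^ 2 * y + 17 * x ^ 2 * z + 21 * x ^ 2 * t - 92 * x * y ^ 2 - 2 * x * y * z
    + 8 * x * y * t + 12 * y ^ 2 * t,
   20 * x ^ 3 - 38 * x ^ 2 * y + 19 * x ^ 2 * z - 7 * x ^ 2 * t - 81 * x * y ^ 2 + 46 * x * y * z +
    31 * x * y * t - 4 * y ^ 2 * z + 16 * y ^ 2 * t,
   17 * x ^ 3 - 59 * x ^ 2 * y + 16 * x ^ 2 * z - 7 * x ^ 2 * t - 2 * x * y ^ 2 + 31 * x * y * z -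
    40 * x * y * t - 72 * y ^ 3 - 36 * y ^ 2 * z + 16 * y ^ 2 * t,
   24 * x ^ 3 + 2 * x ^ 2 * y - 17 * x ^ 2 * z + 20 * x ^ 2 * t + 74 * x * y ^ 2 - 10 * x * y * z +
    3 * x * y * t + 28 * y ^ 3 + 4 * y ^ 2 * z - 20 * y ^ 2 * t⟩

/-- the cubic form (0, 2, 0) -/
def g020 (x y z t : ℤ) : V :=
  ⟨-9 * x ^ 3 - 20 * x ^ 2 * y - 94 * x ^ 2 * z + 25 * x ^ 2 * t + 8 * x * y ^ 2 + 42 * x * y * z -
    79 * x * y * t - 78 * x * z ^ 2 - 94 * x * z * t + 98 * x * t ^ 2 - 44 * y ^ 3 - 4 * y ^ 2 *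
    z - 32 * y ^ 2 * t - 44 * y * z ^ 2 - 20 * y * z * t + 60 * y * t ^ 2,
   -12 * x ^ 3 - 31 * x ^ 2 * y + 25 * x ^ 2 * z + 80 * x ^ 2 * t - 34 * x * y ^ 2 + 41 * x * y * z
    - 40 * x * y * t + 20 * x * z ^ 2 - 16 * x * z * t + 94 * x * t ^ 2 - 8 * y ^ 2 * z - 4 * y
    ^ 2 * t + 16 * y * z ^ 2 + 24 * y * z * t + 20 * y * t ^ 2,
   12 * x ^ 3 + 31 * x ^ 2 * y + 51 * x ^ 2 * z - 44 * x ^ 2 * t + 72 * x * y ^ 2 + x * y * z + 34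
    * x * y * t + 94 * x * z ^ 2 - 20 * x * z * t - 78 * x * t ^ 2 + 12 * y ^ 3 + 4 * y ^ 2 * z
    + 24 * y ^ 2 * t + 20 * y * z ^ 2 - 16 * y * z * t - 44 * y * t ^ 2,
   44 * x ^ 3 + 32 * x ^ 2 * y + 60 * x ^ 2 * z + 77 * x ^ 2 * t - 120 * x * y ^ 2 + 112 * x * y *
    t + 40 * x * z ^ 2 + 37 * x * z * t + 73 * x * t ^ 2 + 4 * y ^ 2 * z - 96 * y ^ 2 * t - 60 *
    y * z ^ 2 + 48 * y * z * t + 132 * y * t ^ 2,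
   47 * x ^ 3 + 43 * x ^ 2 * y + 55 * x ^ 2 * z - 16 * x ^ 2 * t - 21 * x * y ^ 2 + 110 * x * y * z
    + 64 * x * y * t + 113 * x * z ^ 2 - 3 * x * z * t - 37 * x * t ^ 2 + 20 * y ^ 3 - 44 * y ^
    2 * z + 44 * y ^ 2 * t + 72 * y * z ^ 2 + 108 * y * z * t - 48 * y * t ^ 2,
   -44 * x ^ 3 - 32 * x ^ 2 * y - 58 * x ^ 2 * z - x ^ 2 * t + 121 * x * y ^ 2 - 34 * x * y * z -
    163 * x * y * t - 37 * x * z ^ 2 - 113 * x * z * t + 40 * x * t ^ 2 - 36 * y ^ 3 + 8 * y ^ 2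
    * z + 36 * y ^ 2 * t - 48 * y * z ^ 2 - 72 * y * z * t - 60 * y * t ^ 2⟩

/-- the cubic form (0, 2, 1) -/
def g021 (x y z t : ℤ) : V :=
  ⟨-62 * x ^ 3 - 76 * x ^ 2 * y + 48 * x ^ 2 * z + 2 * x ^ 2 * t + 46 * x * y ^ 2 - 61 * x * y * z
    - 14 * x * y * t + 80 * x * z ^ 2 + 212 * x * z * t - 15 * x * t ^ 2 - 76 * y ^ 3 - y ^ 2 *
    z + 57 * y ^ 2 * t - 36 * y * z ^ 2 - 100 * y * z * t + 70 * y * t ^ 2 + 115 * z ^ 2 * t +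
    138 * z * t ^ 2 - 69 * t ^ 3,
   -69 * x ^ 3 - 138 * x ^ 2 * y + 28 * x ^ 2 * z - 40 * x ^ 2 * t + 14 * x * y ^ 2 - 28 * x * y *
    z + 72 * x * y * t + 19 * x * z ^ 2 - 6 * x * z * t - 189 * x * t ^ 2 - 73 * y ^ 3 - 37 * y
    ^ 2 * z - 22 * y ^ 2 * t - 35 * y * z ^ 2 - 41 * y * z * t + 146 * y * t ^ 2 + 46 * z ^ 2 *
    t + 23 * z * t ^ 2 - 138 * t ^ 3,
   81 * x ^ 3 + 126 * x ^ 2 * y - 53 * x ^ 2 * z + 31 * x ^ 2 * t - 43 * x * y ^ 2 + 57 * x * y * z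
    - 48 * x * y * t - 74 * x * z ^ 2 - 111 * x * z * t + 126 * x * t ^ 2 + 89 * y ^ 3 + 15 * y
    ^ 2 * z - 22 * y ^ 2 * t + 54 * y * z ^ 2 + 58 * y * z * t - 128 * y * t ^ 2 - 138 * z ^ 2 *
    t - 46 * z * t ^ 2 + 115 * t ^ 3,
   12 * x ^ 3 - 12 * x ^ 2 * y - 11 * x ^ 2 * z - 29 * x ^ 2 * t - 22 * x * y ^ 2 + 37 * x * y * z
    + 45 * x * y * t - 34 * x * z ^ 2 - 143 * x * z * t - 100 * x * t ^ 2 + 25 * y ^ 3 - 25 * y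
    ^ 2 * z - 29 * y ^ 2 * t + 23 * y * z ^ 2 + 69 * y * z * t - 46 * z ^ 2 * t - 92 * z * t ^ 2
    - 23 * t ^ 3,
   19 * x ^ 3 + 50 * x ^ 2 * y - 37 * x ^ 2 * z + 13 * x ^ 2 * t - 13 * x * y ^ 2 + 20 * x * y * z
    - 54 * x * y * t - 42 * x * z ^ 2 - 63 * x * z * t + 97 * x * t ^ 2 + 30 * y ^ 3 + 16 * y ^
    2 * z + 2 * y ^ 2 * t + 23 * y * z ^ 2 + 46 * y * z * t - 115 * y * t ^ 2 - 69 * z ^ 2 * t -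
    46 * z * t ^ 2 + 92 * t ^ 3,
   34 * x ^ 2 * z + 4 * x ^ 2 * t + 17 * x * y ^ 2 - 44 * x * y * z + 13 * x * y * t + 51 * x * z ^
    2 + 134 * x * z * t - 11 * x * t ^ 2 - 23 * y ^ 3 + 23 * y ^ 2 * t - 46 * y * z ^ 2 - 46 * y
    * z * t + 69 * y * t ^ 2 + 92 * z ^ 2 * t + 69 * z * t ^ 2 - 46 * t ^ 3⟩

/-- the cubic form (0, 2, 2) -/
def g022 (x y z t : ℤ) : V :=
  ⟨17 * x ^ 3 + 45 * x ^ 2 * y + 34 * x ^ 2 * z + 34 * x ^ 2 * t + 2 * x * y ^ 2 + 98 * x * y * z +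
    32 * x * y * t - 34 * x * z ^ 2 - 5 * x * z * t + 38 * x * t ^ 2 - 28 * y ^ 3 + 43 * y ^ 2 *
    z + 46 * y ^ 2 * t + 4 * y * z ^ 2 + 6 * y * z * t + 5 * y * t ^ 2,
   -14 * x ^ 3 - 7 * x ^ 2 * y + x ^ 2 * z - 34 * x ^ 2 * t + 59 * x * y ^ 2 - 39 * x * y * z - 62
    * x * y * t + 4 * x * z ^ 2 + 29 * x * z * t + 5 * x * t ^ 2 - 17 * y ^ 3 + 55 * y ^ 2 * z +
    25 * y ^ 2 * t + 9 * y * z ^ 2 + 2 * y * z * t - 6 * y * t ^ 2,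
   16 * x ^ 3 - 9 * x ^ 2 * y + 11 * x ^ 2 * z - 10 * x ^ 2 * t - 49 * x * y ^ 2 - 44 * x * y * z +
    39 * x * y * t + 5 * x * z ^ 2 - 4 * x * z * t - 34 * x * t ^ 2 + 33 * y ^ 3 - 45 * y ^ 2 *
    z - 56 * y ^ 2 * t - 6 * y * z ^ 2 - 9 * y * z * t + 4 * y * t ^ 2,
   -13 * x ^ 3 - 24 * x ^ 2 * y + 15 * x ^ 2 * z - 68 * x ^ 2 * t + 29 * x * y ^ 2 - 29 * x * y * z
    - 80 * x * y * t + 12 * x * z ^ 2 + 18 * x * z * t - 31 * x * t ^ 2 + 27 * y ^ 3 + 6 * y ^ 2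
    * z - 36 * y ^ 2 * t + 8 * y * z ^ 2 - 11 * y * z * t - 13 * y * t ^ 2,
   12 * x ^ 3 - x ^ 2 * y + 19 * x ^ 2 * z - 3 * x ^ 2 * t - 54 * x * y ^ 2 - 14 * x * y * z + 45 *
    x * y * t - 19 * x * z ^ 2 + 6 * x * z * t - 18 * x * t ^ 2 + 22 * y ^ 3 + 11 * y ^ 2 * z -
    65 * y ^ 2 * t - 5 * y * z ^ 2 - 19 * y * z * t + 11 * y * t ^ 2,
   2 * x ^ 3 + 32 * x ^ 2 * y + 14 * x ^ 2 * z - 4 * x ^ 2 * t + 9 * x * y ^ 2 + x * y * z + 40 * x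
    * y * t - 18 * x * z ^ 2 + 19 * x * z * t + 12 * x * t ^ 2 - 24 * y ^ 3 + 16 * y ^ 2 * z +
    45 * y ^ 2 * t + 11 * y * z ^ 2 + 5 * y * z * t + 8 * y * t ^ 2⟩

/-- the cubic form (1, 0, 0) -/
def g100 (x y z t : ℤ) : V :=
  ⟨-72 * x ^ 3 - 95 * x ^ 2 * y - 121 * x ^ 2 * z - 68 * x ^ 2 * t - 14 * x * y ^ 2 - 163 * x * y *
    z - 157 * x * y * t - 39 * x * z ^ 2 - x * z * t + 26 * x * t ^ 2 + 45 * y ^ 3 + 4 * y ^ 2 *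
    z - 138 * y ^ 2 * t - 6 * y * z ^ 2 - 55 * y * z * t + 27 * y * t ^ 2,
   -54 * x ^ 3 - 85 * x ^ 2 * y - 75 * x ^ 2 * z - 132 * x ^ 2 * t + 44 * x * y ^ 2 - 155 * x * y *
    z - 368 * x * y * t - 98 * x * z ^ 2 - 32 * x * z * t + 96 * x * t ^ 2 + 72 * y ^ 3 + 3 * y
    ^ 2 * z - 146 * y ^ 2 * t - 8 * y * z ^ 2 - 58 * y * z * t + 13 * y * t ^ 2,
   -4 * x ^ 3 - 63 * x ^ 2 * y - 147 * x ^ 2 * z + x ^ 2 * t + 10 * x * y ^ 2 - 128 * x * y * z -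
    219 * x * y * t - 71 * x * z ^ 2 - 72 * x * z * t + 78 * x * t ^ 2 + 28 * y ^ 3 - 125 * y ^
    2 * z - 13 * y ^ 2 * t - 41 * y * z ^ 2 + 19 * y * z * t - 11 * y * t ^ 2,
   -42 * x ^ 3 - 93 * x ^ 2 * y - 129 * x ^ 2 * z - 69 * x ^ 2 * t + 116 * x * y ^ 2 - 123 * x * y
    * z - 294 * x * y * t - 72 * x * z ^ 2 + 7 * x * z * t + 71 * x * t ^ 2 + 13 * y ^ 3 + 106 *
    y ^ 2 * z - 59 * y ^ 2 * t + 19 * y * z ^ 2 - 52 * y * z * t + 41 * y * t ^ 2,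
   -93 * x ^ 3 - 97 * x ^ 2 * y - 188 * x ^ 2 * z - 137 * x ^ 2 * t + 213 * x * y ^ 2 - 172 * x * y
    * z - 449 * x * y * t - 73 * x * z ^ 2 - 6 * x * z * t + 110 * x * t ^ 2 - 25 * y ^ 3 + 22 *
    y ^ 2 * z + 16 * y ^ 2 * t - 36 * y * z ^ 2 - 31 * y * z * t + 47 * y * t ^ 2,
   -74 * x ^ 3 - 54 * x ^ 2 * y - 114 * x ^ 2 * z - 76 * x ^ 2 * t + 70 * x * y ^ 2 - 290 * x * y *
    z - 230 * x * y * t - 32 * x * z ^ 2 - 2 * x * z * t + 98 * x * t ^ 2 - 25 * y ^ 3 - 35 * y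
    ^ 2 * z - 4 * y ^ 2 * t - 58 * y * z ^ 2 + 5 * y * z * t + 8 * y * t ^ 2⟩

/-- the cubic form (1, 0, 1) -/
def g101 (x y z t : ℤ) : V :=
  ⟨42 * x ^ 3 + 80 * x ^ 2 * y + 64 * x ^ 2 * z + 78 * x ^ 2 * t + 50 * x * y ^ 2 - 26 * x * y * z
    + 77 * x * y * t + 36 * x * z ^ 2 + 54 * x * z * t + 45 * x * t ^ 2 - 3 * y ^ 3 + 39 * y ^ 2
    * z - 104 * y ^ 2 * t - 67 * y * z ^ 2 - 43 * y * z * t + 129 * y * t ^ 2,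
   69 * x ^ 3 + 117 * x ^ 2 * y - 31 * x ^ 2 * z + 111 * x ^ 2 * t + 42 * x * y ^ 2 - 12 * x * y *
    z - 23 * x * y * t - 57 * x * z ^ 2 - 28 * x * z * t + 153 * x * t ^ 2 + 38 * y ^ 3 + 50 * y
    ^ 2 * z - 103 * y ^ 2 * t - 99 * y * z ^ 2 - 22 * y * z * t + 112 * y * t ^ 2,
   -23 * x ^ 3 + 34 * x ^ 2 * y - 48 * x ^ 2 * z - 11 * x ^ 2 * t + 65 * x * y ^ 2 + 24 * x * y * z
    + 68 * x * y * t - 54 * x * z ^ 2 - 12 * x * z * t - 10 * x * t ^ 2 + 17 * y ^ 3 + 18 * y ^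
    2 * z - 65 * y ^ 2 * t - 26 * y * z ^ 2 + 30 * y * z * t + 71 * y * t ^ 2,
   -17 * x ^ 3 + 22 * x ^ 2 * y - 24 * x ^ 2 * z + 24 * x ^ 2 * t + 27 * x * y ^ 2 + 82 * x * y * z
    + 10 * x * y * t - 12 * x * z ^ 2 - 64 * x * z * t + 54 * x * t ^ 2 + 38 * y ^ 3 + 3 * y ^ 2
    * z - 20 * y ^ 2 * t + 30 * y * z ^ 2 + 45 * y * z * t + 26 * y * t ^ 2,
   -27 * x ^ 3 + 31 * x ^ 2 * y + 40 * x ^ 2 * z + 68 * x ^ 2 * t + 80 * x * y ^ 2 + 89 * x * y * z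
    + 137 * x * y * t + 42 * x * z ^ 2 + 17 * x * z * t + 18 * x * t ^ 2 + 29 * y ^ 3 - 3 * y ^
    2 * z - 82 * y ^ 2 * t - 13 * y * z ^ 2 + 107 * y * z * t + 93 * y * t ^ 2,
   37 * x ^ 3 + 35 * x ^ 2 * y + 31 * x ^ 2 * z + 100 * x ^ 2 * t + 48 * x * y ^ 2 + 28 * x * y * z
    + 69 * x * y * t - 28 * x * z ^ 2 + 96 * x * z * t + 57 * x * t ^ 2 + 21 * y ^ 3 + 19 * y ^
    2 * z - 81 * y ^ 2 * t - 22 * y * z ^ 2 + 13 * y * z * t + 99 * y * t ^ 2⟩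

/-- the cubic form (1, 0, 2) -/
def g102 (x y z t : ℤ) : V :=
  ⟨-62 * x ^ 3 - 76 * x ^ 2 * y + 16 * x ^ 2 * z - 18 * x ^ 2 * t + 30 * x * y ^ 2 - 37 * x * y * z
    - 6 * x * y * t + 32 * x * z ^ 2 + 48 * x * z * t - 29 * x * t ^ 2 - 59 * y ^ 3 + y ^ 2 * z
    + 24 * y ^ 2 * t - 31 * y * z ^ 2 - 12 * y * z * t + 13 * y * t ^ 2 + 69 * z ^ 2 * t - 23 *
    t ^ 3,
   -62 * x ^ 3 - 76 * x ^ 2 * y + 48 * x ^ 2 * z + 2 * x ^ 2 * t + 46 * x * y ^ 2 - 61 * x * y * z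
    - 14 * x * y * t + 80 * x * z ^ 2 + 212 * x * z * t - 15 * x * t ^ 2 - 76 * y ^ 3 - y ^ 2 *
    z + 57 * y ^ 2 * t - 36 * y * z ^ 2 - 100 * y * z * t + 70 * y * t ^ 2 + 115 * z ^ 2 * t +
    138 * z * t ^ 2 - 69 * t ^ 3,
   -12 * x ^ 3 + 12 * x ^ 2 * y + 11 * x ^ 2 * z + 29 * x ^ 2 * t + 22 * x * y ^ 2 - 37 * x * y * z
    - 45 * x * y * t + 34 * x * z ^ 2 + 143 * x * z * t + 100 * x * t ^ 2 - 25 * y ^ 3 + 25 * y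
    ^ 2 * z + 29 * y ^ 2 * t - 23 * y * z ^ 2 - 69 * y * z * t + 46 * z ^ 2 * t + 92 * z * t ^ 2
    + 23 * t ^ 3,
   34 * x ^ 2 * z + 4 * x ^ 2 * t + 17 * x * y ^ 2 - 44 * x * y * z + 13 * x * y * t + 51 * x * z ^
    2 + 134 * x * z * t - 11 * x * t ^ 2 - 23 * y ^ 3 + 23 * y ^ 2 * t - 46 * y * z ^ 2 - 46 * y
    * z * t + 69 * y * t ^ 2 + 92 * z ^ 2 * t + 69 * z * t ^ 2 - 46 * t ^ 3,
   -81 * x ^ 3 - 126 * x ^ 2 * y + 39 * x ^ 2 * z - 11 * x ^ 2 * t + 36 * x * y ^ 2 - 65 * x * y *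
    z + 27 * x * y * t + 53 * x * z ^ 2 + 137 * x * z * t - 89 * x * t ^ 2 - 98 * y ^ 3 - 12 * y
    ^ 2 * z + 7 * y ^ 2 * t - 58 * y * z ^ 2 - 110 * y * z * t + 146 * y * t ^ 2 + 92 * z ^ 2 *
    t + 115 * z * t ^ 2 - 115 * t ^ 3,
   -81 * x ^ 3 - 126 * x ^ 2 * y + 53 * x ^ 2 * z - 31 * x ^ 2 * t + 43 * x * y ^ 2 - 57 * x * y *
    z + 48 * x * y * t + 74 * x * z ^ 2 + 111 * x * z * t - 126 * x * t ^ 2 - 89 * y ^ 3 - 15 *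
    y ^ 2 * z + 22 * y ^ 2 * t - 54 * y * z ^ 2 - 58 * y * z * t + 128 * y * t ^ 2 + 138 * z ^ 2
    * t + 46 * z * t ^ 2 - 115 * t ^ 3⟩

/-- the cubic form (1, 1, 0) -/
def g110 (x y z t : ℤ) : V :=
  ⟨-4 * x ^ 3 - 3 * x ^ 2 * y + 88 * x ^ 2 * z + 79 * x ^ 2 * t + 15 * x * y ^ 2 + 65 * x * y * z +
    69 * x * y * t + 96 * x * z ^ 2 + 29 * x * z * t + 28 * x * t ^ 2 + 12 * y ^ 3 - 21 * y ^ 2
    * z - 17 * y ^ 2 * t + 13 * y * z ^ 2 + 77 * y * z * t + 22 * y * t ^ 2,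
   42 * x ^ 3 + 80 * x ^ 2 * y + 64 * x ^ 2 * z + 78 * x ^ 2 * t + 50 * x * y ^ 2 - 26 * x * y * z
    + 77 * x * y * t + 36 * x * z ^ 2 + 54 * x * z * t + 45 * x * t ^ 2 - 3 * y ^ 3 + 39 * y ^ 2
    * z - 104 * y ^ 2 * t - 67 * y * z ^ 2 - 43 * y * z * t + 129 * y * t ^ 2,
   17 * x ^ 3 - 22 * x ^ 2 * y + 24 * x ^ 2 * z - 24 * x ^ 2 * t - 27 * x * y ^ 2 - 82 * x * y * z
    - 10 * x * y * t + 12 * x * z ^ 2 + 64 * x * z * t - 54 * x * t ^ 2 - 38 * y ^ 3 - 3 * y ^ 2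
    * z + 20 * y ^ 2 * t - 30 * y * z ^ 2 - 45 * y * z * t - 26 * y * t ^ 2,
   37 * x ^ 3 + 35 * x ^ 2 * y + 31 * x ^ 2 * z + 100 * x ^ 2 * t + 48 * x * y ^ 2 + 28 * x * y * z
    + 69 * x * y * t - 28 * x * z ^ 2 + 96 * x * z * t + 57 * x * t ^ 2 + 21 * y ^ 3 + 19 * y ^
    2 * z - 81 * y ^ 2 * t - 22 * y * z ^ 2 + 13 * y * z * t + 99 * y * t ^ 2,
   86 * x ^ 3 + 95 * x ^ 2 * y - 7 * x ^ 2 * z + 87 * x ^ 2 * t + 15 * x * y ^ 2 - 94 * x * y * z -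
    33 * x * y * t - 45 * x * z ^ 2 + 36 * x * z * t + 99 * x * t ^ 2 + 47 * y ^ 2 * z - 83 * y
    ^ 2 * t - 129 * y * z ^ 2 - 67 * y * z * t + 86 * y * t ^ 2,
   23 * x ^ 3 - 34 * x ^ 2 * y + 48 * x ^ 2 * z + 11 * x ^ 2 * t - 65 * x * y ^ 2 - 24 * x * y * z
    - 68 * x * y * t + 54 * x * z ^ 2 + 12 * x * z * t + 10 * x * t ^ 2 - 17 * y ^ 3 - 18 * y ^
    2 * z + 65 * y ^ 2 * t + 26 * y * z ^ 2 - 30 * y * z * t - 71 * y * t ^ 2⟩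

/-- the cubic form (1, 1, 1) -/
def g111 (x y z t : ℤ) : V :=
  ⟨73 * x ^ 3 + 114 * x ^ 2 * y + 24 * x ^ 2 * z - 59 * x ^ 2 * t - 2 * x * y ^ 2 + 7 * x * y * z -
    45 * x * y * t + 58 * y ^ 3 + 40 * y ^ 2 * z + 9 * y ^ 2 * t,
   73 * x ^ 3 + 114 * x ^ 2 * y + 24 * x ^ 2 * z - 59 * x ^ 2 * t - 2 * x * y ^ 2 + 7 * x * y * z -
    45 * x * y * t + 58 * y ^ 3 + 40 * y ^ 2 * z + 9 * y ^ 2 * t,
   -40 * x ^ 3 - 59 * x ^ 2 * y - 10 * x ^ 2 * z + 15 * x ^ 2 * t - 3 * x * y ^ 2 - x * y * z + 13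
    * x * y * t - 28 * y ^ 3 - 32 * y ^ 2 * z + 2 * y ^ 2 * t,
   40 * x ^ 3 + 59 * x ^ 2 * y + 10 * x ^ 2 * z - 15 * x ^ 2 * t + 3 * x * y ^ 2 + x * y * z - 13 *
    x * y * t + 28 * y ^ 3 + 32 * y ^ 2 * z - 2 * y ^ 2 * t,
   33 * x ^ 3 + 55 * x ^ 2 * y + 14 * x ^ 2 * z - 44 * x ^ 2 * t - 5 * x * y ^ 2 + 6 * x * y * z -
    32 * x * y * t + 30 * y ^ 3 + 8 * y ^ 2 * z + 11 * y ^ 2 * t,
   40 * x ^ 3 + 59 * x ^ 2 * y + 10 * x ^ 2 * z - 15 * x ^ 2 * t + 3 * x * y ^ 2 + x * y * z - 13 *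
    x * y * t + 28 * y ^ 3 + 32 * y ^ 2 * z - 2 * y ^ 2 * t⟩

/-- the cubic form (1, 1, 2) -/
def g112 (x y z t : ℤ) : V :=
  ⟨-4 * x ^ 3 - 46 * x ^ 2 * y - 15 * x ^ 2 * z + 14 * x ^ 2 * t - 6 * x * y ^ 2 - 47 * x * y * z -
    6 * x * y * t - 25 * x * z ^ 2 - 3 * x * z * t + 9 * x * t ^ 2 - 13 * y ^ 3 - 40 * y ^ 2 * z
    + 55 * y ^ 2 * t - 7 * y * z ^ 2 + 24 * y * z * t - 3 * y * t ^ 2,
   23 * x ^ 3 - 32 * x ^ 2 * y + 35 * x ^ 2 * z + 9 * x ^ 2 * t - 3 * x * y ^ 2 + 31 * x * y * z -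
    68 * x * y * t - 18 * x * z ^ 2 - 27 * x * z * t + 12 * x * t ^ 2 - 9 * y ^ 3 - 23 * y ^ 2 *
    z + 24 * y ^ 2 * t + 6 * y * z ^ 2 + 9 * y * z * t - 4 * y * t ^ 2,
   35 * x ^ 3 + 17 * x ^ 2 * y + 7 * x ^ 2 * z + 56 * x ^ 2 * t + 16 * x * y ^ 2 + 16 * x * y * z +
    11 * x * y * t - 6 * x * z ^ 2 - 9 * x * z * t + 4 * x * t ^ 2 + 10 * y ^ 3 + 51 * y ^ 2 * z
    - 11 * y ^ 2 * t + 25 * y * z ^ 2 + 3 * y * z * t - 9 * y * t ^ 2,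
   -6 * x ^ 2 * z + 2 * x ^ 2 * t - 3 * x * y ^ 2 + 3 * x * y * z - 21 * x * y * t - 9 * x * z ^ 2
    - 2 * x * z * t + 6 * x * t ^ 2 + y ^ 3 - 8 * y ^ 2 * z + 17 * y ^ 2 * t + 3 * y * z ^ 2 +
    16 * y * z * t - 25 * y * t ^ 2,
   -8 * x ^ 2 * z + 18 * x ^ 2 * t - 4 * x * y ^ 2 + 27 * x * y * z - 28 * x * y * t - 12 * x * z ^
    2 - 18 * x * z * t + 31 * x * t ^ 2 + 9 * y ^ 3 - 3 * y ^ 2 * z + 15 * y ^ 2 * t + 27 * y *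
    z ^ 2 + 6 * y * z * t - 18 * y * t ^ 2,
   -18 * x ^ 2 * z + 6 * x ^ 2 * t - 9 * x * y ^ 2 + 9 * x * y * z - 17 * x * y * t - 27 * x * z ^
    2 - 6 * x * z * t + 18 * x * t ^ 2 + 3 * y ^ 3 - y ^ 2 * z + 5 * y ^ 2 * t + 9 * y * z ^ 2 +
    2 * y * z * t - 6 * y * t ^ 2⟩

/-- the cubic form (1, 2, 0) -/
def g120 (x y z t : ℤ) : V :=
  ⟨36 * x ^ 3 + 121 * x ^ 2 * y + 35 * x ^ 2 * z + 3 * x ^ 2 * t + 129 * x * y ^ 2 + 27 * x * y * z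
    - 2 * x * y * t + 24 * y ^ 3 + 24 * y ^ 2 * z - 16 * y ^ 2 * t,
   80 * x ^ 3 + 139 * x ^ 2 * y - x ^ 2 * z - 28 * x ^ 2 * t + 90 * x * y ^ 2 + 33 * x * y * z - 48
    * x * y * t - 72 * y ^ 3 - 36 * y ^ 2 * z + 4 * y ^ 2 * t,
   -24 * x ^ 3 - 2 * x ^ 2 * y + 17 * x ^ 2 * z - 20 * x ^ 2 * t - 74 * x * y ^ 2 + 10 * x * y * z
    - 3 * x * y * t - 28 * y ^ 3 - 4 * y ^ 2 * z + 20 * y ^ 2 * t,
   63 * x ^ 3 + 198 * x ^ 2 * y - 17 * x ^ 2 * z - 21 * x ^ 2 * t + 92 * x * y ^ 2 + 2 * x * y * z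
    - 8 * x * y * t - 12 * y ^ 2 * t,
   26 * x ^ 3 + 121 * x ^ 2 * y + 21 * x ^ 2 * z - 59 * x ^ 2 * t - 87 * x * y ^ 2 - 37 * x * y * z
    - 24 * x * y * t - 92 * y ^ 3 - 52 * y ^ 2 * z + 16 * y ^ 2 * t,
   20 * x ^ 3 - 38 * x ^ 2 * y + 19 * x ^ 2 * z - 7 * x ^ 2 * t - 81 * x * y ^ 2 + 46 * x * y * z +
    31 * x * y * t - 4 * y ^ 2 * z + 16 * y ^ 2 * t⟩

/-- the cubic form (1, 2, 1) -/
def g121 (x y z t : ℤ) : V :=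
  ⟨23 * x ^ 3 - 32 * x ^ 2 * y + 35 * x ^ 2 * z + 9 * x ^ 2 * t - 3 * x * y ^ 2 + 31 * x * y * z -
    68 * x * y * t - 18 * x * z ^ 2 - 27 * x * z * t + 12 * x * t ^ 2 - 9 * y ^ 3 - 23 * y ^ 2 *
    z + 24 * y ^ 2 * t + 6 * y * z ^ 2 + 9 * y * z * t - 4 * y * t ^ 2,
   -35 * x ^ 3 - 17 * x ^ 2 * y - 15 * x ^ 2 * z - 38 * x ^ 2 * t - 20 * x * y ^ 2 + 11 * x * y * z
    - 39 * x * y * t - 6 * x * z ^ 2 - 9 * x * z * t + 27 * x * t ^ 2 - y ^ 3 - 54 * y ^ 2 * z +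
    26 * y ^ 2 * t + 2 * y * z ^ 2 + 3 * y * z * t - 9 * y * t ^ 2,
   18 * x ^ 2 * z - 6 * x ^ 2 * t + 9 * x * y ^ 2 - 9 * x * y * z + 17 * x * y * t + 27 * x * z ^ 2
    + 6 * x * z * t - 18 * x * t ^ 2 - 3 * y ^ 3 + y ^ 2 * z - 5 * y ^ 2 * t - 9 * y * z ^ 2 - 2
    * y * z * t + 6 * y * t ^ 2,
   -35 * x ^ 3 - 17 * x ^ 2 * y - 7 * x ^ 2 * z - 56 * x ^ 2 * t - 16 * x * y ^ 2 - 16 * x * y * z
    - 11 * x * y * t + 6 * x * z ^ 2 + 9 * x * z * t - 4 * x * t ^ 2 - 10 * y ^ 3 - 51 * y ^ 2 *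
    z + 11 * y ^ 2 * t - 25 * y * z ^ 2 - 3 * y * z * t + 9 * y * t ^ 2,
   -4 * x ^ 3 - 46 * x ^ 2 * y + 3 * x ^ 2 * z + 8 * x ^ 2 * t + 3 * x * y ^ 2 - 56 * x * y * z +
    11 * x * y * t + 2 * x * z ^ 2 + 3 * x * z * t - 9 * x * t ^ 2 - 16 * y ^ 3 - 39 * y ^ 2 * z
    + 50 * y ^ 2 * t - 16 * y * z ^ 2 + 22 * y * z * t + 3 * y * t ^ 2,
   -6 * x ^ 2 * z + 2 * x ^ 2 * t - 3 * x * y ^ 2 + 3 * x * y * z - 21 * x * y * t - 9 * x * z ^ 2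
    - 2 * x * z * t + 6 * x * t ^ 2 + y ^ 3 - 8 * y ^ 2 * z + 17 * y ^ 2 * t + 3 * y * z ^ 2 +
    16 * y * z * t - 25 * y * t ^ 2⟩

/-- the cubic form (1, 2, 2) -/
def g122 (x y z t : ℤ) : V :=
  ⟨11 * x ^ 3 + 3 * x ^ 2 * y + 3 * x ^ 2 * z - 22 * x ^ 2 * t - 14 * x * y ^ 2 - 16 * x * y * z +
    21 * x * y * t + 23 * x * z ^ 2 - 23 * x * t ^ 2 + 9 * y ^ 3 + 9 * y ^ 2 * z - 6 * y ^ 2 * t
    - 5 * y * z ^ 2 - 19 * y * z * t + 11 * y * t ^ 2,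
   13 * x ^ 3 + 22 * x ^ 2 * y - 11 * x ^ 2 * z + 4 * x ^ 2 * t - 24 * x * y ^ 2 + 10 * x * y * z +
    12 * x * y * t - x * z ^ 2 - 13 * x * z * t + 16 * x * t ^ 2 + 18 * y ^ 3 + 11 * y ^ 2 * z -
    8 * y ^ 2 * t + 15 * y * z ^ 2 - 12 * y * z * t + 13 * y * t ^ 2,
   -17 * x ^ 3 + 6 * x ^ 2 * y - 42 * x ^ 2 * z - 16 * x ^ 2 * t - 18 * x * y ^ 2 + x * y * z + 14
    * x * y * t - 39 * x * z ^ 2 - 24 * x * z * t + 3 * x * t ^ 2 - y ^ 3 - 3 * y ^ 2 * z - 14 *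
    y ^ 2 * t - 21 * y * z ^ 2 + 26 * y * z * t + 14 * y * t ^ 2,
   -12 * x ^ 3 - 7 * x ^ 2 * y - 25 * x ^ 2 * z + 19 * x ^ 2 * t - 19 * x * y ^ 2 + 34 * x * y * z
    + x * y * t - 24 * x * z ^ 2 - 36 * x * z * t + 39 * x * t ^ 2 + 6 * y ^ 3 + 6 * y ^ 2 * z -
    12 * y ^ 2 * t + 26 * y * z ^ 2 - 7 * y * z * t + 21 * y * t ^ 2,
   -7 * x ^ 3 + 3 * x ^ 2 * y - 39 * x ^ 2 * z - 3 * x ^ 2 * t - 15 * x * y ^ 2 + 19 * x * y * z +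
    19 * x * y * t - 24 * x * z ^ 2 - 36 * x * z * t + 16 * x * t ^ 2 + 16 * y ^ 3 + 11 * y ^ 2
    * z - 20 * y ^ 2 * t + 7 * y * z ^ 2 - y * z * t + 26 * y * t ^ 2,
   11 * x ^ 3 + 5 * x ^ 2 * y - 14 * x ^ 2 * z + 5 * x ^ 2 * t - 15 * x * y ^ 2 - 5 * x * y * z + 2
    * x * y * t - 13 * x * z ^ 2 + 15 * x * z * t + x * t ^ 2 + 11 * y ^ 3 - 6 * y ^ 2 * z + 6 *
    y ^ 2 * t - 12 * y * z ^ 2 + 28 * y * z * t - 15 * y * t ^ 2⟩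

/-- the cubic form (2, 0, 0) -/
def g200 (x y z t : ℤ) : V :=
  ⟨-12 * x ^ 3 - 31 * x ^ 2 * y + 25 * x ^ 2 * z + 80 * x ^ 2 * t - 34 * x * y ^ 2 + 41 * x * y * z
    - 40 * x * y * t + 20 * x * z ^ 2 - 16 * x * z * t + 94 * x * t ^ 2 - 8 * y ^ 2 * z - 4 * y
    ^ 2 * t + 16 * y * z ^ 2 + 24 * y * z * t + 20 * y * t ^ 2,
   35 * x ^ 3 + 12 * x ^ 2 * y + 4 * x ^ 2 * z + 28 * x ^ 2 * t - 93 * x * y ^ 2 + 109 * x * y * z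
    + 30 * x * y * t + 19 * x * z ^ 2 + 17 * x * z * t + 41 * x * t ^ 2 + 8 * y ^ 3 - 48 * y ^ 2
    * z + 20 * y ^ 2 * t + 52 * y * z ^ 2 + 124 * y * z * t - 4 * y * t ^ 2,
   44 * x ^ 3 + 32 * x ^ 2 * y + 58 * x ^ 2 * z + x ^ 2 * t - 121 * x * y ^ 2 + 34 * x * y * z +
    163 * x * y * t + 37 * x * z ^ 2 + 113 * x * z * t - 40 * x * t ^ 2 + 36 * y ^ 3 - 8 * y ^ 2
    * z - 36 * y ^ 2 * t + 48 * y * z ^ 2 + 72 * y * z * t + 60 * y * t ^ 2,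
   -12 * x ^ 3 - 31 * x ^ 2 * y - 51 * x ^ 2 * z + 44 * x ^ 2 * t - 72 * x * y ^ 2 - x * y * z - 34
    * x * y * t - 94 * x * z ^ 2 + 20 * x * z * t + 78 * x * t ^ 2 - 12 * y ^ 3 - 4 * y ^ 2 * z
    - 24 * y ^ 2 * t - 20 * y * z ^ 2 + 16 * y * z * t + 44 * y * t ^ 2,
   35 * x ^ 3 + 12 * x ^ 2 * y - 36 * x ^ 2 * z + 26 * x ^ 2 * t - 113 * x * y ^ 2 + 76 * x * y * z
    + 84 * x * y * t - 41 * x * z ^ 2 + 19 * x * z * t + 58 * x * t ^ 2 - 8 * y ^ 3 - 12 * y ^ 2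
    * z - 68 * y ^ 2 * t + 4 * y * z ^ 2 + 52 * y * z * t + 120 * y * t ^ 2,
   44 * x ^ 3 + 32 * x ^ 2 * y + 60 * x ^ 2 * z + 77 * x ^ 2 * t - 120 * x * y ^ 2 + 112 * x * y *
    t + 40 * x * z ^ 2 + 37 * x * z * t + 73 * x * t ^ 2 + 4 * y ^ 2 * z - 96 * y ^ 2 * t - 60 *
    y * z ^ 2 + 48 * y * z * t + 132 * y * t ^ 2⟩

/-- the cubic form (2, 0, 1) -/
def g201 (x y z t : ℤ) : V :=
  ⟨80 * x ^ 3 + 139 * x ^ 2 * y - x ^ 2 * z - 28 * x ^ 2 * t + 90 * x * y ^ 2 + 33 * x * y * z - 48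
    * x * y * t - 72 * y ^ 3 - 36 * y ^ 2 * z + 4 * y ^ 2 * t,
   50 * x ^ 3 + 123 * x ^ 2 * y + 4 * x ^ 2 * z - 39 * x ^ 2 * t - 13 * x * y ^ 2 - 47 * x * y * z
    - 21 * x * y * t - 64 * y ^ 3 - 48 * y ^ 2 * z - 4 * y ^ 2 * t,
   -20 * x ^ 3 + 38 * x ^ 2 * y - 19 * x ^ 2 * z + 7 * x ^ 2 * t + 81 * x * y ^ 2 - 46 * x * y * z
    - 31 * x * y * t + 4 * y ^ 2 * z - 16 * y ^ 2 * t,
   24 * x ^ 3 + 2 * x ^ 2 * y - 17 * x ^ 2 * z + 20 * x ^ 2 * t + 74 * x * y ^ 2 - 10 * x * y * z +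
    3 * x * y * t + 28 * y ^ 3 + 4 * y ^ 2 * z - 20 * y ^ 2 * t,
   16 * x ^ 3 + 159 * x ^ 2 * y + 16 * x ^ 2 * z + 10 * x ^ 2 * t + 210 * x * y ^ 2 - 19 * x * y *
    z - 33 * x * y * t + 24 * y ^ 3 + 28 * y ^ 2 * z - 32 * y ^ 2 * t,
   63 * x ^ 3 + 198 * x ^ 2 * y - 17 * x ^ 2 * z - 21 * x ^ 2 * t + 92 * x * y ^ 2 + 2 * x * y * z
    - 8 * x * y * t - 12 * y ^ 2 * t⟩

/-- the cubic form (2, 0, 2) -/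
def g202 (x y z t : ℤ) : V :=
  ⟨-4 * x ^ 3 + 8 * x ^ 2 * y + 8 * x ^ 2 * z + 7 * x ^ 2 * t - 5 * x * y ^ 2 + 30 * x * y * z + 6
    * x * y * t - 24 * x * z ^ 2 + 10 * x * z * t + 16 * x * t ^ 2 - 11 * y ^ 3 + 56 * y ^ 2 * z
    - 9 * y ^ 2 * t + y * z ^ 2 - 10 * y * z * t + 7 * y * t ^ 2,
   17 * x ^ 3 + 45 * x ^ 2 * y + 34 * x ^ 2 * z + 34 * x ^ 2 * t + 2 * x * y ^ 2 + 98 * x * y * z +
    32 * x * y * t - 34 * x * z ^ 2 - 5 * x * z * t + 38 * x * t ^ 2 - 28 * y ^ 3 + 43 * y ^ 2 *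
    z + 46 * y ^ 2 * t + 4 * y * z ^ 2 + 6 * y * z * t + 5 * y * t ^ 2,
   13 * x ^ 3 + 24 * x ^ 2 * y - 15 * x ^ 2 * z + 68 * x ^ 2 * t - 29 * x * y ^ 2 + 29 * x * y * z
    + 80 * x * y * t - 12 * x * z ^ 2 - 18 * x * z * t + 31 * x * t ^ 2 - 27 * y ^ 3 - 6 * y ^ 2
    * z + 36 * y ^ 2 * t - 8 * y * z ^ 2 + 11 * y * z * t + 13 * y * t ^ 2,
   2 * x ^ 3 + 32 * x ^ 2 * y + 14 * x ^ 2 * z - 4 * x ^ 2 * t + 9 * x * y ^ 2 + x * y * z + 40 * x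
    * y * t - 18 * x * z ^ 2 + 19 * x * z * t + 12 * x * t ^ 2 - 24 * y ^ 3 + 16 * y ^ 2 * z +
    45 * y ^ 2 * t + 11 * y * z ^ 2 + 5 * y * z * t + 8 * y * t ^ 2,
   -x ^ 3 + 17 * x ^ 2 * y - 14 * x ^ 2 * z + 34 * x ^ 2 * t + 30 * x * y ^ 2 - 10 * x * y * z + 18
    * x * y * t - 8 * x * z ^ 2 + 11 * x * z * t + 36 * x * t ^ 2 - 44 * y ^ 3 + 49 * y ^ 2 * z
    + 61 * y ^ 2 * t + y * z ^ 2 + 13 * y * z * t + 7 * y * t ^ 2,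
   -16 * x ^ 3 + 9 * x ^ 2 * y - 11 * x ^ 2 * z + 10 * x ^ 2 * t + 49 * x * y ^ 2 + 44 * x * y * z
    - 39 * x * y * t - 5 * x * z ^ 2 + 4 * x * z * t + 34 * x * t ^ 2 - 33 * y ^ 3 + 45 * y ^ 2
    * z + 56 * y ^ 2 * t + 6 * y * z ^ 2 + 9 * y * z * t - 4 * y * t ^ 2⟩

/-- the cubic form (2, 1, 0) -/
def g210 (x y z t : ℤ) : V :=
  ⟨-69 * x ^ 3 - 138 * x ^ 2 * y + 28 * x ^ 2 * z - 40 * x ^ 2 * t + 14 * x * y ^ 2 - 28 * x * y *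
    z + 72 * x * y * t + 19 * x * z ^ 2 - 6 * x * z * t - 189 * x * t ^ 2 - 73 * y ^ 3 - 37 * y
    ^ 2 * z - 22 * y ^ 2 * t - 35 * y * z ^ 2 - 41 * y * z * t + 146 * y * t ^ 2 + 46 * z ^ 2 *
    t + 23 * z * t ^ 2 - 138 * t ^ 3,
   -62 * x ^ 3 - 76 * x ^ 2 * y + 16 * x ^ 2 * z - 18 * x ^ 2 * t + 30 * x * y ^ 2 - 37 * x * y * z
    - 6 * x * y * t + 32 * x * z ^ 2 + 48 * x * z * t - 29 * x * t ^ 2 - 59 * y ^ 3 + y ^ 2 * z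
    + 24 * y ^ 2 * t - 31 * y * z ^ 2 - 12 * y * z * t + 13 * y * t ^ 2 + 69 * z ^ 2 * t - 23 *
    t ^ 3,
   -34 * x ^ 2 * z - 4 * x ^ 2 * t - 17 * x * y ^ 2 + 44 * x * y * z - 13 * x * y * t - 51 * x * z
    ^ 2 - 134 * x * z * t + 11 * x * t ^ 2 + 23 * y ^ 3 - 23 * y ^ 2 * t + 46 * y * z ^ 2 + 46 *
    y * z * t - 69 * y * t ^ 2 - 92 * z ^ 2 * t - 69 * z * t ^ 2 + 46 * t ^ 3,
   -81 * x ^ 3 - 126 * x ^ 2 * y + 53 * x ^ 2 * z - 31 * x ^ 2 * t + 43 * x * y ^ 2 - 57 * x * y *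
    z + 48 * x * y * t + 74 * x * z ^ 2 + 111 * x * z * t - 126 * x * t ^ 2 - 89 * y ^ 3 - 15 *
    y ^ 2 * z + 22 * y ^ 2 * t - 54 * y * z ^ 2 - 58 * y * z * t + 128 * y * t ^ 2 + 138 * z ^ 2
    * t + 46 * z * t ^ 2 - 115 * t ^ 3,
   -62 * x ^ 3 - 76 * x ^ 2 * y + 14 * x ^ 2 * z - 2 * x ^ 2 * t + 29 * x * y ^ 2 - 17 * x * y * z
    - 27 * x * y * t + 29 * x * z ^ 2 + 78 * x * z * t - 4 * x * t ^ 2 - 53 * y ^ 3 - y ^ 2 * z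
    + 34 * y ^ 2 * t + 10 * y * z ^ 2 - 54 * y * z * t + y * t ^ 2 + 23 * z ^ 2 * t + 69 * z * t
    ^ 2 - 23 * t ^ 3,
   12 * x ^ 3 - 12 * x ^ 2 * y - 11 * x ^ 2 * z - 29 * x ^ 2 * t - 22 * x * y ^ 2 + 37 * x * y * z
    + 45 * x * y * t - 34 * x * z ^ 2 - 143 * x * z * t - 100 * x * t ^ 2 + 25 * y ^ 3 - 25 * y
    ^ 2 * z - 29 * y ^ 2 * t + 23 * y * z ^ 2 + 69 * y * z * t - 46 * z ^ 2 * t - 92 * z * t ^ 2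
    - 23 * t ^ 3⟩

/-- the cubic form (2, 1, 1) -/
def g211 (x y z t : ℤ) : V :=
  ⟨-35 * x ^ 3 - 17 * x ^ 2 * y - 15 * x ^ 2 * z - 38 * x ^ 2 * t - 20 * x * y ^ 2 + 11 * x * y * z
    - 39 * x * y * t - 6 * x * z ^ 2 - 9 * x * z * t + 27 * x * t ^ 2 - y ^ 3 - 54 * y ^ 2 * z +
    26 * y ^ 2 * t + 2 * y * z ^ 2 + 3 * y * z * t - 9 * y * t ^ 2,
   -4 * x ^ 3 - 46 * x ^ 2 * y - 15 * x ^ 2 * z + 14 * x ^ 2 * t - 6 * x * y ^ 2 - 47 * x * y * z -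
    6 * x * y * t - 25 * x * z ^ 2 - 3 * x * z * t + 9 * x * t ^ 2 - 13 * y ^ 3 - 40 * y ^ 2 * z
    + 55 * y ^ 2 * t - 7 * y * z ^ 2 + 24 * y * z * t - 3 * y * t ^ 2,
   6 * x ^ 2 * z - 2 * x ^ 2 * t + 3 * x * y ^ 2 - 3 * x * y * z + 21 * x * y * t + 9 * x * z ^ 2 +
    2 * x * z * t - 6 * x * t ^ 2 - y ^ 3 + 8 * y ^ 2 * z - 17 * y ^ 2 * t - 3 * y * z ^ 2 - 16
    * y * z * t + 25 * y * t ^ 2,
   -18 * x ^ 2 * z + 6 * x ^ 2 * t - 9 * x * y ^ 2 + 9 * x * y * z - 17 * x * y * t - 27 * x * z ^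
    2 - 6 * x * z * t + 18 * x * t ^ 2 + 3 * y ^ 3 - y ^ 2 * z + 5 * y ^ 2 * t + 9 * y * z ^ 2 +
    2 * y * z * t - 6 * y * t ^ 2,
   23 * x ^ 3 - 32 * x ^ 2 * y + 41 * x ^ 2 * z + 7 * x ^ 2 * t + 28 * x * y * z - 47 * x * y * t -
    9 * x * z ^ 2 - 25 * x * z * t + 6 * x * t ^ 2 - 10 * y ^ 3 - 15 * y ^ 2 * z + 7 * y ^ 2 * t
    + 3 * y * z ^ 2 - 7 * y * z * t + 21 * y * t ^ 2,
   -35 * x ^ 3 - 17 * x ^ 2 * y - 7 * x ^ 2 * z - 56 * x ^ 2 * t - 16 * x * y ^ 2 - 16 * x * y * z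
    - 11 * x * y * t + 6 * x * z ^ 2 + 9 * x * z * t - 4 * x * t ^ 2 - 10 * y ^ 3 - 51 * y ^ 2 *
    z + 11 * y ^ 2 * t - 25 * y * z ^ 2 - 3 * y * z * t + 9 * y * t ^ 2⟩

/-- the cubic form (2, 1, 2) -/
def g212 (x y z t : ℤ) : V :=
  ⟨10 * x ^ 3 - 3 * x ^ 2 * y + 3 * x ^ 2 * z + 13 * x ^ 2 * t + 3 * x * y ^ 2 + 18 * x * y * z + 5
    * x * y * t + 15 * x * z ^ 2 - 12 * x * z * t + 13 * x * t ^ 2 + 17 * y ^ 3 + 14 * y ^ 2 * z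
    - 6 * y ^ 2 * t + 28 * y * z ^ 2 - 27 * y * z * t + 12 * y * t ^ 2,
   11 * x ^ 3 + 3 * x ^ 2 * y + 3 * x ^ 2 * z - 22 * x ^ 2 * t - 14 * x * y ^ 2 - 16 * x * y * z +
    21 * x * y * t + 23 * x * z ^ 2 - 23 * x * t ^ 2 + 9 * y ^ 3 + 9 * y ^ 2 * z - 6 * y ^ 2 * t
    - 5 * y * z ^ 2 - 19 * y * z * t + 11 * y * t ^ 2,
   12 * x ^ 3 + 7 * x ^ 2 * y + 25 * x ^ 2 * z - 19 * x ^ 2 * t + 19 * x * y ^ 2 - 34 * x * y * z -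
    x * y * t + 24 * x * z ^ 2 + 36 * x * z * t - 39 * x * t ^ 2 - 6 * y ^ 3 - 6 * y ^ 2 * z +
    12 * y ^ 2 * t - 26 * y * z ^ 2 + 7 * y * z * t - 21 * y * t ^ 2,
   11 * x ^ 3 + 5 * x ^ 2 * y - 14 * x ^ 2 * z + 5 * x ^ 2 * t - 15 * x * y ^ 2 - 5 * x * y * z + 2
    * x * y * t - 13 * x * z ^ 2 + 15 * x * z * t + x * t ^ 2 + 11 * y ^ 3 - 6 * y ^ 2 * z + 6 *
    y ^ 2 * t - 12 * y * z ^ 2 + 28 * y * z * t - 15 * y * t ^ 2,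
   25 * x ^ 3 + 29 * x ^ 2 * y + 14 * x ^ 2 * z - 15 * x ^ 2 * t - 5 * x * y ^ 2 - 24 * x * y * z +
    11 * x * y * t + 23 * x * z ^ 2 + 23 * x * z * t - 23 * x * t ^ 2 + 12 * y ^ 3 + 5 * y ^ 2 *
    z + 4 * y ^ 2 * t - 11 * y * z ^ 2 - 5 * y * z * t - 8 * y * t ^ 2,
   17 * x ^ 3 - 6 * x ^ 2 * y + 42 * x ^ 2 * z + 16 * x ^ 2 * t + 18 * x * y ^ 2 - x * y * z - 14 *
    x * y * t + 39 * x * z ^ 2 + 24 * x * z * t - 3 * x * t ^ 2 + y ^ 3 + 3 * y ^ 2 * z + 14 * y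
    ^ 2 * t + 21 * y * z ^ 2 - 26 * y * z * t - 14 * y * t ^ 2⟩

/-- the cubic form (2, 2, 0) -/
def g220 (x y z t : ℤ) : V :=
  ⟨-14 * x ^ 3 - 7 * x ^ 2 * y + x ^ 2 * z - 34 * x ^ 2 * t + 59 * x * y ^ 2 - 39 * x * y * z - 62
    * x * y * t + 4 * x * z ^ 2 + 29 * x * z * t + 5 * x * t ^ 2 - 17 * y ^ 3 + 55 * y ^ 2 * z +
    25 * y ^ 2 * t + 9 * y * z ^ 2 + 2 * y * z * t - 6 * y * t ^ 2,
   -4 * x ^ 3 + 8 * x ^ 2 * y + 8 * x ^ 2 * z + 7 * x ^ 2 * t - 5 * x * y ^ 2 + 30 * x * y * z + 6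
    * x * y * t - 24 * x * z ^ 2 + 10 * x * z * t + 16 * x * t ^ 2 - 11 * y ^ 3 + 56 * y ^ 2 * z
    - 9 * y ^ 2 * t + y * z ^ 2 - 10 * y * z * t + 7 * y * t ^ 2,
   -2 * x ^ 3 - 32 * x ^ 2 * y - 14 * x ^ 2 * z + 4 * x ^ 2 * t - 9 * x * y ^ 2 - x * y * z - 40 *
    x * y * t + 18 * x * z ^ 2 - 19 * x * z * t - 12 * x * t ^ 2 + 24 * y ^ 3 - 16 * y ^ 2 * z -
    45 * y ^ 2 * t - 11 * y * z ^ 2 - 5 * y * z * t - 8 * y * t ^ 2,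
   -16 * x ^ 3 + 9 * x ^ 2 * y - 11 * x ^ 2 * z + 10 * x ^ 2 * t + 49 * x * y ^ 2 + 44 * x * y * z
    - 39 * x * y * t - 5 * x * z ^ 2 + 4 * x * z * t + 34 * x * t ^ 2 - 33 * y ^ 3 + 45 * y ^ 2
    * z + 56 * y ^ 2 * t + 6 * y * z ^ 2 + 9 * y * z * t - 4 * y * t ^ 2,
   15 * x ^ 3 + 13 * x ^ 2 * y + 20 * x ^ 2 * z + 38 * x ^ 2 * t - 7 * x * y ^ 2 + 97 * x * y * z -
    8 * x * y * t - 16 * x * z ^ 2 - 24 * x * z * t + 26 * x * t ^ 2 - 4 * y ^ 3 + 27 * y ^ 2 *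
    z + y ^ 2 * t - 7 * y * z ^ 2 + y * z * t - 3 * y * t ^ 2,
   -13 * x ^ 3 - 24 * x ^ 2 * y + 15 * x ^ 2 * z - 68 * x ^ 2 * t + 29 * x * y ^ 2 - 29 * x * y * z
    - 80 * x * y * t + 12 * x * z ^ 2 + 18 * x * z * t - 31 * x * t ^ 2 + 27 * y ^ 3 + 6 * y ^ 2
    * z - 36 * y ^ 2 * t + 8 * y * z ^ 2 - 11 * y * z * t - 13 * y * t ^ 2⟩

/-- the cubic form (2, 2, 1) -/
def g221 (x y z t : ℤ) : V :=
  ⟨13 * x ^ 3 + 22 * x ^ 2 * y - 11 * x ^ 2 * z + 4 * x ^ 2 * t - 24 * x * y ^ 2 + 10 * x * y * z +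
    12 * x * y * t - x * z ^ 2 - 13 * x * z * t + 16 * x * t ^ 2 + 18 * y ^ 3 + 11 * y ^ 2 * z -
    8 * y ^ 2 * t + 15 * y * z ^ 2 - 12 * y * z * t + 13 * y * t ^ 2,
   10 * x ^ 3 - 3 * x ^ 2 * y + 3 * x ^ 2 * z + 13 * x ^ 2 * t + 3 * x * y ^ 2 + 18 * x * y * z + 5
    * x * y * t + 15 * x * z ^ 2 - 12 * x * z * t + 13 * x * t ^ 2 + 17 * y ^ 3 + 14 * y ^ 2 * z
    - 6 * y ^ 2 * t + 28 * y * z ^ 2 - 27 * y * z * t + 12 * y * t ^ 2,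
   -11 * x ^ 3 - 5 * x ^ 2 * y + 14 * x ^ 2 * z - 5 * x ^ 2 * t + 15 * x * y ^ 2 + 5 * x * y * z -
    2 * x * y * t + 13 * x * z ^ 2 - 15 * x * z * t - x * t ^ 2 - 11 * y ^ 3 + 6 * y ^ 2 * z - 6
    * y ^ 2 * t + 12 * y * z ^ 2 - 28 * y * z * t + 15 * y * t ^ 2,
   17 * x ^ 3 - 6 * x ^ 2 * y + 42 * x ^ 2 * z + 16 * x ^ 2 * t + 18 * x * y ^ 2 - x * y * z - 14 *
    x * y * t + 39 * x * z ^ 2 + 24 * x * z * t - 3 * x * t ^ 2 + y ^ 3 + 3 * y ^ 2 * z + 14 * y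
    ^ 2 * t + 21 * y * z ^ 2 - 26 * y * z * t - 14 * y * t ^ 2,
   -2 * x ^ 2 * y + 17 * x ^ 2 * z - 27 * x ^ 2 * t + x * y ^ 2 - 11 * x * y * z + 19 * x * y * t +
    36 * x * z ^ 2 - 15 * x * z * t - 24 * x * t ^ 2 - 2 * y ^ 3 + 15 * y ^ 2 * z - 12 * y ^ 2 *
    t + 7 * y * z ^ 2 - 47 * y * z * t + 26 * y * t ^ 2,
   -12 * x ^ 3 - 7 * x ^ 2 * y - 25 * x ^ 2 * z + 19 * x ^ 2 * t - 19 * x * y ^ 2 + 34 * x * y * z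
    + x * y * t - 24 * x * z ^ 2 - 36 * x * z * t + 39 * x * t ^ 2 + 6 * y ^ 3 + 6 * y ^ 2 * z -
    12 * y ^ 2 * t + 26 * y * z ^ 2 - 7 * y * z * t + 21 * y * t ^ 2⟩

/-- the cubic form (2, 2, 2) -/
def g222 (x y z t : ℤ) : V :=
  ⟨-3 * x ^ 3 + 6 * x ^ 2 * y + x ^ 2 * z - 11 * x ^ 2 * t + 4 * x * y ^ 2 + 2 * x * y * z - 6 * x
    * y * t + 2 * y ^ 3 - 10 * y ^ 2 * z + 4 * y ^ 2 * t,
   -3 * x ^ 3 + 6 * x ^ 2 * y + x ^ 2 * z - 11 * x ^ 2 * t + 4 * x * y ^ 2 + 2 * x * y * z - 6 * x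
    * y * t + 2 * y ^ 3 - 10 * y ^ 2 * z + 4 * y ^ 2 * t,
   -8 * x ^ 3 - 22 * x ^ 2 * y + 8 * x ^ 2 * z + 3 * x ^ 2 * t + 4 * x * y ^ 2 + 3 * x * y * z - 9
    * x * y * t - 11 * y ^ 3 - y ^ 2 * z + 2 * y ^ 2 * t,
   8 * x ^ 3 + 22 * x ^ 2 * y - 8 * x ^ 2 * z - 3 * x ^ 2 * t - 4 * x * y ^ 2 - 3 * x * y * z + 9 *
    x * y * t + 11 * y ^ 3 + y ^ 2 * z - 2 * y ^ 2 * t,
   -11 * x ^ 3 - 16 * x ^ 2 * y + 9 * x ^ 2 * z - 8 * x ^ 2 * t + 8 * x * y ^ 2 + 5 * x * y * z -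
    15 * x * y * t - 9 * y ^ 3 - 11 * y ^ 2 * z + 6 * y ^ 2 * t,
   8 * x ^ 3 + 22 * x ^ 2 * y - 8 * x ^ 2 * z - 3 * x ^ 2 * t - 4 * x * y ^ 2 - 3 * x * y * z + 9 *
    x * y * t + 11 * y ^ 3 + y ^ 2 * z - 2 * y ^ 2 * t⟩

/-- the quotient (0, 0, 0) -/
def A000 (x y z t : ℤ) : V :=
  ⟨0,
   0,
   0,
   0,
   0,
   0⟩

/-- the quotient (0, 0, 1) -/
def A001 (x y z t : ℤ) : V :=
  ⟨-2254 * x - 184 * y,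
   -46 * x + 115 * y,
   736 * x + 1334 * y,
   1633 * x + 943 * y,
   -161 * x + 1196 * y,
   -1656 * x + 437 * y⟩

/-- the quotient (0, 0, 2) -/
def A002 (x y z t : ℤ) : V :=
  ⟨437 * x + 1196 * y,
   -1794 * x - 1012 * y,
   -920 * x + 1380 * y,
   -851 * x - 1104 * y,
   -460 * x + 1748 * y,
   -2162 * x - 460 * y⟩

/-- the quotient (0, 1, 0) -/
def A010 (x y z t : ℤ) : V :=
  ⟨-46 * x + 115 * y,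
   -897 * x - 138 * y,
   1656 * x - 437 * y,
   -736 * x - 1334 * y,
   -598 * x - 621 * y,
   1633 * x + 943 * y⟩

/-- the quotient (0, 1, 1) -/
def A011 (x y z t : ℤ) : V :=
  ⟨-1311 * x - 2277 * y,
   2208 * x + 299 * y,
   644 * x + 506 * y,
   1242 * x + 598 * y,
   1472 * x - 1035 * y,
   -276 * x + 690 * y⟩

/-- the quotient (0, 1, 2) -/
def A012 (x y z t : ℤ) : V :=
  ⟨0,
   0,
   0,
   0,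
   0,
   0⟩

/-- the quotient (0, 2, 0) -/
def A020 (x y z t : ℤ) : V :=
  ⟨-1794 * x - 1012 * y,
   460 * x + 368 * y,
   2162 * x + 460 * y,
   920 * x - 1380 * y,
   2599 * x + 1656 * y,
   -851 * x - 1104 * y⟩

/-- the quotient (0, 2, 1) -/
def A021 (x y z t : ℤ) : V :=
  ⟨1840 * x - 828 * y + 2645 * t,
   437 * x - 805 * y + 1058 * t,
   -1702 * x + 1242 * y - 3174 * t,
   -782 * x + 529 * y - 1058 * t,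
   -966 * x + 529 * y - 1587 * t,
   1173 * x - 1058 * y + 2116 * t⟩

/-- the quotient (0, 2, 2) -/
def A022 (x y z t : ℤ) : V :=
  ⟨-782 * x + 92 * y,
   92 * x + 207 * y,
   115 * x - 138 * y,
   276 * x + 184 * y,
   -437 * x - 115 * y,
   -414 * x + 253 * y⟩

/-- the quotient (1, 0, 0) -/
def A100 (x y z t : ℤ) : V :=
  ⟨-897 * x - 138 * y,
   -2254 * x - 184 * y,
   -1633 * x - 943 * y,
   -1656 * x + 437 * y,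
   -1679 * x - 828 * y,
   -736 * x - 1334 * y⟩

/-- the quotient (1, 0, 1) -/
def A101 (x y z t : ℤ) : V :=
  ⟨828 * x - 1541 * y,
   -1311 * x - 2277 * y,
   -1242 * x - 598 * y,
   -276 * x + 690 * y,
   966 * x - 299 * y,
   -644 * x - 506 * y⟩

/-- the quotient (1, 0, 2) -/
def A102 (x y z t : ℤ) : V :=
  ⟨736 * x - 713 * y + 1587 * t,
   1840 * x - 828 * y + 2645 * t,
   782 * x - 529 * y + 1058 * t,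
   1173 * x - 1058 * y + 2116 * t,
   1219 * x - 1334 * y + 2116 * t,
   1702 * x - 1242 * y + 3174 * t⟩

/-- the quotient (1, 1, 0) -/
def A110 (x y z t : ℤ) : V :=
  ⟨2208 * x + 299 * y,
   828 * x - 1541 * y,
   276 * x - 690 * y,
   -644 * x - 506 * y,
   -1035 * x - 2967 * y,
   1242 * x + 598 * y⟩

/-- the quotient (1, 1, 1) -/
def A111 (x y z t : ℤ) : V :=
  ⟨0,
   0,
   0,
   0,
   0,
   0⟩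

/-- the quotient (1, 1, 2) -/
def A112 (x y z t : ℤ) : V :=
  ⟨-575 * x - 161 * y,
   -414 * x + 138 * y,
   -138 * x + 575 * y,
   -207 * x + 69 * y,
   -276 * x + 621 * y,
   -621 * x + 207 * y⟩

/-- the quotient (1, 2, 0) -/
def A120 (x y z t : ℤ) : V :=
  ⟨0,
   0,
   0,
   0,
   0,
   0⟩

/-- the quotient (1, 2, 1) -/
def A121 (x y z t : ℤ) : V :=
  ⟨-414 * x + 138 * y,
   -138 * x + 46 * y,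
   621 * x - 207 * y,
   138 * x - 575 * y,
   46 * x - 368 * y,
   -207 * x + 69 * y⟩

/-- the quotient (1, 2, 2) -/
def A122 (x y z t : ℤ) : V :=
  ⟨529 * x - 115 * y,
   -23 * x + 345 * y,
   -897 * x - 483 * y,
   -552 * x + 598 * y,
   -552 * x + 161 * y,
   -299 * x - 276 * y⟩

/-- the quotient (2, 0, 0) -/
def A200 (x y z t : ℤ) : V :=
  ⟨460 * x + 368 * y,
   437 * x + 1196 * y,
   851 * x + 1104 * y,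
   -2162 * x - 460 * y,
   -943 * x + 92 * y,
   920 * x - 1380 * y⟩

/-- the quotient (2, 0, 1) -/
def A201 (x y z t : ℤ) : V :=
  ⟨0,
   0,
   0,
   0,
   0,
   0⟩

/-- the quotient (2, 0, 2) -/
def A202 (x y z t : ℤ) : V :=
  ⟨-552 * x + 23 * y,
   -782 * x + 92 * y,
   -276 * x - 184 * y,
   -414 * x + 253 * y,
   -184 * x + 23 * y,
   -115 * x + 138 * y⟩

/-- the quotient (2, 1, 0) -/
def A210 (x y z t : ℤ) : V :=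
  ⟨437 * x - 805 * y + 1058 * t,
   736 * x - 713 * y + 1587 * t,
   -1173 * x + 1058 * y - 2116 * t,
   1702 * x - 1242 * y + 3174 * t,
   667 * x + 230 * y + 529 * t,
   -782 * x + 529 * y - 1058 * t⟩

/-- the quotient (2, 1, 1) -/
def A211 (x y z t : ℤ) : V :=
  ⟨-138 * x + 46 * y,
   -575 * x - 161 * y,
   207 * x - 69 * y,
   -621 * x + 207 * y,
   -207 * x + 69 * y,
   138 * x - 575 * y⟩

/-- the quotient (2, 1, 2) -/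
def A212 (x y z t : ℤ) : V :=
  ⟨345 * x + 644 * y,
   529 * x - 115 * y,
   552 * x - 598 * y,
   -299 * x - 276 * y,
   529 * x - 253 * y,
   897 * x + 483 * y⟩

/-- the quotient (2, 2, 0) -/
def A220 (x y z t : ℤ) : V :=
  ⟨92 * x + 207 * y,
   -552 * x + 23 * y,
   414 * x - 253 * y,
   -115 * x + 138 * y,
   -368 * x - 161 * y,
   276 * x + 184 * y⟩

/-- the quotient (2, 2, 1) -/
def A221 (x y z t : ℤ) : V :=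
  ⟨-23 * x + 345 * y,
   345 * x + 644 * y,
   299 * x + 276 * y,
   897 * x + 483 * y,
   828 * x + 161 * y,
   -552 * x + 598 * y⟩

/-- the quotient (2, 2, 2) -/
def A222 (x y z t : ℤ) : V :=
  ⟨0,
   0,
   0,
   0,
   0,
   0⟩

end Pool.Agent.E8helper69.CB
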