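import Pool.Agent.E8helper69.CB.Data

/-!
# CB: the cubic forms are permuted by `σ`
-/

set_option autoImplicit false
set_option maxHeartbeats 0

namespace Pool.Agent.E8helper69.CB

/-- the generator `-p + p² - q` of the prime ideal over `2` -/
def piV : V := ⟨0, -1, 1, -1, 0, 0⟩

theorem i2_000 (x y z t : ℤ) :
    (piV.mul (g000 x y z t)).sig = piV.mul (g000 x y z t) := by
  simp only [V.sig, V.mul, piV, g000]
  congr 1 <;> ring

theorem i2_001 (x y z t : ℤ) :
    (piV.mul (g001 x y z t)).sig = piV.mul (g100 x y z t) := by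
  simp only [V.sig, V.mul, piV, g001, g100]
  congr 1 <;> ring

theorem i2_002 (x y z t : ℤ) :
    (piV.mul (g002 x y z t)).sig = piV.mul (g200 x y z t) := by
  simp only [V.sig, V.mul, piV, g002, g200]
  congr 1 <;> ring

theorem i2_010 (x y z t : ℤ) :
    (piV.mul (g010 x y z t)).sig = piV.mul (g001 x y z t) := by
  simp only [V.sig, V.mul, piV, g010, g001]
  congr 1 <;> ring

theorem i2_011 (x y z t : ℤ) :
    (piV.mul (g011 x y z t)).sig = piV.mul (g101 x y z t) := by
  simp only [V.sig, V.mul, piV, g011, g101]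
  congr 1 <;> ring

theorem i2_012 (x y z t : ℤ) :
    (piV.mul (g012 x y z t)).sig = piV.mul (g201 x y z t) := by
  simp only [V.sig, V.mul, piV, g012, g201]
  congr 1 <;> ring

theorem i2_020 (x y z t : ℤ) :
    (piV.mul (g020 x y z t)).sig = piV.mul (g002 x y z t) := by
  simp only [V.sig, V.mul, piV, g020, g002]
  congr 1 <;> ring

theorem i2_021 (x y z t : ℤ) :
    (piV.mul (g021 x y z t)).sig = piV.mul (g102 x y z t) := by
  simp only [V.sig, V.mul, piV, g021, g102]
  congr 1 <;> ring

theorem i2_022 (x y z t : ℤ) :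
    (piV.mul (g022 x y z t)).sig = piV.mul (g202 x y z t) := by
  simp only [V.sig, V.mul, piV, g022, g202]
  congr 1 <;> ring

theorem i2_100 (x y z t : ℤ) :
    (piV.mul (g100 x y z t)).sig = piV.mul (g010 x y z t) := by
  simp only [V.sig, V.mul, piV, g100, g010]
  congr 1 <;> ring

theorem i2_101 (x y z t : ℤ) :
    (piV.mul (g101 x y z t)).sig = piV.mul (g110 x y z t) := by
  simp only [V.sig, V.mul, piV, g101, g110]
  congr 1 <;> ring

theorem i2_102 (x y z t : ℤ) :
    (piV.mul (g102 x y z t)).sig = piV.mul (g210 x y z t) := by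
  simp only [V.sig, V.mul, piV, g102, g210]
  congr 1 <;> ring

theorem i2_110 (x y z t : ℤ) :
    (piV.mul (g110 x y z t)).sig = piV.mul (g011 x y z t) := by
  simp only [V.sig, V.mul, piV, g110, g011]
  congr 1 <;> ring

theorem i2_111 (x y z t : ℤ) :
    (piV.mul (g111 x y z t)).sig = piV.mul (g111 x y z t) := by
  simp only [V.sig, V.mul, piV, g111]
  congr 1 <;> ring

theorem i2_112 (x y z t : ℤ) :
    (piV.mul (g112 x y z t)).sig = piV.mul (g211 x y z t) := by
  simp only [V.sig, V.mul, piV, g112, g211]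
  congr 1 <;> ring

theorem i2_120 (x y z t : ℤ) :
    (piV.mul (g120 x y z t)).sig = piV.mul (g012 x y z t) := by
  simp only [V.sig, V.mul, piV, g120, g012]
  congr 1 <;> ring

theorem i2_121 (x y z t : ℤ) :
    (piV.mul (g121 x y z t)).sig = piV.mul (g112 x y z t) := by
  simp only [V.sig, V.mul, piV, g121, g112]
  congr 1 <;> ring

theorem i2_122 (x y z t : ℤ) :
    (piV.mul (g122 x y z t)).sig = piV.mul (g212 x y z t) := by
  simp only [V.sig, V.mul, piV, g122, g212]
  congr 1 <;> ring

theorem i2_200 (x y z t : ℤ) :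
    (piV.mul (g200 x y z t)).sig = piV.mul (g020 x y z t) := by
  simp only [V.sig, V.mul, piV, g200, g020]
  congr 1 <;> ring

theorem i2_201 (x y z t : ℤ) :
    (piV.mul (g201 x y z t)).sig = piV.mul (g120 x y z t) := by
  simp only [V.sig, V.mul, piV, g201, g120]
  congr 1 <;> ring

theorem i2_202 (x y z t : ℤ) :
    (piV.mul (g202 x y z t)).sig = piV.mul (g220 x y z t) := by
  simp only [V.sig, V.mul, piV, g202, g220]
  congr 1 <;> ring

theorem i2_210 (x y z t : ℤ) :
    (piV.mul (g210 x y z t)).sig = piV.mul (g021 x y z t) := by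
  simp only [V.sig, V.mul, piV, g210, g021]
  congr 1 <;> ring

theorem i2_211 (x y z t : ℤ) :
    (piV.mul (g211 x y z t)).sig = piV.mul (g121 x y z t) := by
  simp only [V.sig, V.mul, piV, g211, g121]
  congr 1 <;> ring

theorem i2_212 (x y z t : ℤ) :
    (piV.mul (g212 x y z t)).sig = piV.mul (g221 x y z t) := by
  simp only [V.sig, V.mul, piV, g212, g221]
  congr 1 <;> ring

theorem i2_220 (x y z t : ℤ) :
    (piV.mul (g220 x y z t)).sig = piV.mul (g022 x y z t) := by
  simp only [V.sig, V.mul, piV, g220, g022]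
  congr 1 <;> ring

theorem i2_221 (x y z t : ℤ) :
    (piV.mul (g221 x y z t)).sig = piV.mul (g122 x y z t) := by
  simp only [V.sig, V.mul, piV, g221, g122]
  congr 1 <;> ring

theorem i2_222 (x y z t : ℤ) :
    (piV.mul (g222 x y z t)).sig = piV.mul (g222 x y z t) := by
  simp only [V.sig, V.mul, piV, g222]
  congr 1 <;> ring

end Pool.Agent.E8helper69.CB
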