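import Pool.Agent.E8helper69.CB.Asm

/-!
# CB: the main theorem
-/

set_option autoImplicit false

namespace Pool.Agent.E8helper69.CB

open NumberField

theorem piV_val {H : Type} [Field H] (D : Fld H) : piV.val D = -D.p + D.p ^ 2 - D.q := by
  simp only [V.val, piV]
  push_cast
  ring

theorem piV_ne {H : Type} [Field H] [CharZero H] (D : Fld H) : piV.val D ≠ 0 := by
  intro h
  have h1 : piV.val D * (⟨1, 1, 0, 0, 1, 0⟩ : V).val D = 2 := by
    rw [← V.val_mul]
    simp only [V.val, V.mul, piV]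
    push_cast
    ring
  rw [h, zero_mul] at h1
  exact two_ne_zero h1.symm

theorem no_prim (x y z t : ℤ) (hF : F x y z t = 0)
    (hprim : ∃ a b c d : ℤ, a * x ^ 3 + b * y ^ 3 + c * z ^ 3 + d * t ^ 3 = 1) : False := by
  obtain ⟨H, iF, iN, D, hfr, hspan⟩ := Pool.Agent.E8helper73.CB.t_FLD
  have hpid := Pool.Agent.E8helper87.CB.t_PID H D hfr hspan
  obtain ⟨n1, n2, n3, n4, hn⟩ := hprim
  have hres : Res x y z t := by
    refine res_of hF ?_
    rintro ⟨⟨a, rfl⟩, ⟨b, rfl⟩, ⟨c, rfl⟩, ⟨d, rfl⟩⟩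
    have h2 : (2 : ℤ) * (n1 * (4 * a ^ 3) + n2 * (4 * b ^ 3) + n3 * (4 * c ^ 3) +
        n4 * (4 * d ^ 3)) = 1 := by
      rw [← hn]
      ring
    omega
  -- the data at the point
  obtain ⟨π, hπ⟩ : ∃ π, π = piV.val D := ⟨_, rfl⟩
  obtain ⟨M, hM⟩ : ∃ M : Matrix (Fin 3) (Fin 3) H, M = Matrix.of fun i j => (mm i j x y z t).val D :=
    ⟨_, rfl⟩
  obtain ⟨g, hg⟩ : ∃ g : Fin 3 → Fin 3 → Fin 3 → H, g = fun a b c => (gg a b c x y z t).val D :=
    ⟨_, rfl⟩
  have hgv : ∀ a b c, g a b c = (gg a b c x y z t).val D := fun a b c => by rw [hg]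
  have hMv : ∀ i j, M i j = (mm i j x y z t).val D := fun i j => by rw [hM]; rfl
  have hπ0 : π ≠ 0 := by rw [hπ]; exact piV_ne D
  have hπi : IsIntegral ℤ π := by rw [hπ]; exact piV.int_val D
  have hgi : ∀ a b c, IsIntegral ℤ (g a b c) := fun a b c => by
    rw [hgv]; exact (gg a b c x y z t).int_val D
  have hker : ∀ i b c, ∑ a, M i a * g a b c = 0 := by
    intro i b c
    have h := congrArg (V.val D) (gg_ker hF i b c)
    rw [V.val_add3, V.val_mul, V.val_mul, V.val_mul] at h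
    rw [Fin.sum_univ_three]
    simp only [hMv, hgv]
    refine h.trans ?_
    simp [V.val]
  have hsig : ∀ a b c, D.σ (π * g a b c) = π * g c a b := by
    intro a b c
    have h := congrArg (V.val D) (gg_sig a b c x y z t)
    rw [V.val_sig, V.val_mul, V.val_mul] at h
    rw [hgv, hgv, hπ]
    exact h
  obtain ⟨s, u, hs, hu, hsu⟩ := g000_unit D hres
  have hg000 : g 0 0 0 = (g000 x y z t).val D := hgv 0 0 0
  rw [← hg000] at hsu
  have hg0 : g 0 0 0 ≠ 0 := by
    intro h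
    rw [h, mul_zero] at hsu
    exact one_add_two_ne u hu hsu.symm
  have hdet : M.det = 0 := by
    apply Matrix.exists_mulVec_eq_zero_iff.1
    refine ⟨fun a => g a 0 0, fun h => hg0 (congrFun h 0), ?_⟩
    funext i
    exact hker i 0 0
  have hadj : M.adjugate ≠ 0 := by
    intro h
    have h1 : M.adjugate 2 2 = 0 := by rw [h]; rfl
    rw [Matrix.adjugate_fin_three] at h1
    obtain ⟨s', u', hs', hu', hsu'⟩ := adjV_unit D hres
    have h2 : (adjV x y z t).val D = 0 := by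
      have h3 : (adjV x y z t).val D = M 0 0 * M 1 1 - M 0 1 * M 1 0 := by
        rw [hMv, hMv, hMv, hMv]
        unfold adjV
        rw [V.val_add3, V.val_smul, V.val_mul, V.val_mul]
        simp only [mm, V.val]
        push_cast
        ring
      rw [h3]
      simpa using h1
    rw [h2, mul_zero] at hsu'
    exact one_add_two_ne u' hu' hsu'.symm
  obtain ⟨w, μ, hw, ⟨r, hr, hrw⟩, hσμ, hG⟩ := Pool.Agent.E8helper9.CB.t_LIN_span H D hspan M
    (fun a b c => π * g a b c) hdet hadj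
    (fun i b c => by
      have : ∑ a, M i a * (π * g a b c) = π * ∑ a, M i a * g a b c := by
        rw [Finset.mul_sum]
        exact Finset.sum_congr rfl fun a _ => by ring
      rw [this, hker, mul_zero])
    hsig ⟨0, 0, 0, mul_ne_zero hπ0 hg0⟩
  have hσint : ∀ v : H, IsIntegral ℤ v → IsIntegral ℤ (D.σ v) := fun v hv =>
    hv.map (D.σ : H →+* H).toIntAlgHom
  obtain ⟨m, hm⟩ : ∃ m : Fin 3 → Fin 3 → Fin 3 → H,
      m = fun a b c => w a * D.σ (w b) * D.σ (D.σ (w c)) := ⟨_, rfl⟩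
  have hmv : ∀ a b c, m a b c = w a * D.σ (w b) * D.σ (D.σ (w c)) := fun a b c => by rw [hm]
  have hmi : ∀ a b c, IsIntegral ℤ (m a b c) := fun a b c => by
    rw [hmv]
    exact ((hw a).mul (hσint _ (hw b))).mul (hσint _ (hσint _ (hw c)))
  have hG' : ∀ a b c, π * g a b c = μ * m a b c := fun a b c => by rw [hmv]; exact hG a b c
  -- the quotient `ν`
  obtain ⟨ν, hν⟩ : ∃ ν, ν = ∑ a, ∑ b, ∑ c, (r a * D.σ (r b) * D.σ (D.σ (r c))) * g a b c :=
    ⟨_, rfl⟩
  have hνi : IsIntegral ℤ ν := by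
    rw [hν]
    refine IsIntegral.sum _ fun a _ => IsIntegral.sum _ fun b _ => IsIntegral.sum _ fun c _ => ?_
    exact (((hr a).mul (hσint _ (hr b))).mul (hσint _ (hσint _ (hr c)))).mul (hgi a b c)
  have hμν : μ = π * ν := by
    have e1 : π * ν = ∑ a, ∑ b, ∑ c, (r a * D.σ (r b) * D.σ (D.σ (r c))) * (μ * m a b c) := by
      rw [hν, Finset.mul_sum]
      refine Finset.sum_congr rfl fun a _ => ?_
      rw [Finset.mul_sum]
      refine Finset.sum_congr rfl fun b _ => ?_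
      rw [Finset.mul_sum]
      refine Finset.sum_congr rfl fun c _ => ?_
      rw [← hG']
      ring
    have e2 : ∑ a, D.σ (r a) * D.σ (w a) = 1 := by
      have := congrArg D.σ hrw
      rw [map_sum, map_one] at this
      simpa only [map_mul] using this
    have e3 : ∑ a, D.σ (D.σ (r a)) * D.σ (D.σ (w a)) = 1 := by
      have := congrArg D.σ e2
      rw [map_sum, map_one] at this
      simpa only [map_mul] using this
    have e4 : ∑ a, ∑ b, ∑ c, (r a * D.σ (r b) * D.σ (D.σ (r c))) * (μ * m a b c) =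
        μ * ((∑ a, r a * w a) * (∑ a, D.σ (r a) * D.σ (w a)) *
          (∑ a, D.σ (D.σ (r a)) * D.σ (D.σ (w a)))) := by
      simp only [hmv, Fin.sum_univ_three]
      ring
    rw [e1, e4, hrw, e2, e3]
    ring
  have hgν : ∀ a b c, g a b c = ν * m a b c := by
    intro a b c
    have h := hG' a b c
    rw [hμν, mul_assoc] at h
    exact mul_left_cancel₀ hπ0 h
  -- the certificates
  have hcert : ∀ X : ℤ, (∃ C : Fin 3 → Fin 3 → Fin 3 → V, ∀ (H : Type) [Field H] (D : Fld H),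
      ∑ a, ∑ b, ∑ c, (C a b c).val D * (gg a b c x y z t).val D =
        438644684 * ((X : ℤ) : H) ^ 3) → ∃ ρ : H, IsIntegral ℤ ρ ∧
        438644684 * ((X : ℤ) : H) ^ 3 = ν * ρ := by
    rintro X ⟨C, hC⟩
    refine ⟨∑ a, ∑ b, ∑ c, (C a b c).val D * m a b c, ?_, ?_⟩
    · refine IsIntegral.sum _ fun a _ => IsIntegral.sum _ fun b _ => IsIntegral.sum _ fun c _ => ?_
      exact ((C a b c).int_val D).mul (hmi a b c)
    · rw [← hC H D, Finset.mul_sum]
      refine Finset.sum_congr rfl fun a _ => ?_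
      rw [Finset.mul_sum]
      refine Finset.sum_congr rfl fun b _ => ?_
      rw [Finset.mul_sum]
      refine Finset.sum_congr rfl fun c _ => ?_
      rw [← hgv, hgν]
      ring
  obtain ⟨ρ0, hρ0, e0⟩ := hcert x (cert0 hF)
  obtain ⟨ρ1, hρ1, e1⟩ := hcert y (cert1 hF)
  obtain ⟨ρ2, hρ2, e2⟩ := hcert z (cert2 hF)
  obtain ⟨ρ3, hρ3, e3⟩ := hcert t (cert3 hF)
  have hz : ∀ n : ℤ, IsIntegral ℤ (n : H) := fun n => isIntegral_algebraMap (R := ℤ) (x := n)
  have hnH : (n1 : H) * x ^ 3 + n2 * y ^ 3 + n3 * z ^ 3 + n4 * t ^ 3 = 1 := by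
    have := congrArg (fun k : ℤ => (k : H)) hn
    push_cast at this
    exact this
  obtain ⟨ρ, hρ, hρe⟩ : ∃ ρ : H, IsIntegral ℤ ρ ∧ (438644684 : H) = ν * ρ := by
    refine ⟨n1 * ρ0 + n2 * ρ1 + n3 * ρ2 + n4 * ρ3, ?_, ?_⟩
    · exact ((((hz _).mul hρ0).add ((hz _).mul hρ1)).add ((hz _).mul hρ2)).add ((hz _).mul hρ3)
    · linear_combination (-438644684 : H) * hnH + n1 * e0 + n2 * e1 + n3 * e2 + n4 * e3
  -- `ν` is prime to `2`
  have hνκ : ν * (s * m 0 0 0) = 1 + 2 * u := by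
    rw [← hsu, hgν]
    ring
  obtain ⟨κ, hκ⟩ : ∃ κ, κ = s * m 0 0 0 := ⟨_, rfl⟩
  have hκi : IsIntegral ℤ κ := by rw [hκ]; exact hs.mul (hmi 0 0 0)
  rw [← hκ] at hνκ
  refine Pool.Agent.E8helper10.CB.t_NRM H D hspan μ ν
    (109661171 * (ν * κ ^ 2 - 4 * κ * u) + ρ * u ^ 2) 3 1 ?_ hνi ?_ hσμ ?_ ?_
  · rw [hμν]; exact hπi.mul hνi
  · have h4 := hz 4
    have hD := hz 109661171
    push_cast at h4 hD
    exact (hD.mul ((hνi.mul (hκi.pow 2)).sub ((h4.mul hκi).mul hu))).add (hρ.mul (hu.pow 2))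
  · rw [hμν, hπ, piV_val]
  · have hκ2 : (ν * κ - 2 * u) ^ 2 = 1 := by
      rw [hνκ]
      ring
    linear_combination (109661171 : H) * hκ2 - u ^ 2 * hρe

/-- the only integer zero is the trivial one -/
theorem main (x y z t : ℤ) (hF : F x y z t = 0) : x = 0 ∧ y = 0 ∧ z = 0 ∧ t = 0 := by
  by_contra hne
  obtain ⟨g, hg⟩ := (IsPrincipalIdealRing.principal (Ideal.span ({x, y, z, t} : Set ℤ))).principal
  have hdvd : ∀ v ∈ ({x, y, z, t} : Set ℤ), g ∣ v := by
    intro v hv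
    have h := Ideal.subset_span (α := ℤ) hv
    rw [SetLike.mem_coe, hg] at h
    exact Ideal.mem_span_singleton.1 h
  obtain ⟨x', hx⟩ := hdvd x (by simp)
  obtain ⟨y', hy⟩ := hdvd y (by simp)
  obtain ⟨z', hz⟩ := hdvd z (by simp)
  obtain ⟨t', ht⟩ := hdvd t (by simp)
  have hg0 : g ≠ 0 := by
    rintro rfl
    apply hne
    rw [hx, hy, hz, ht]
    simp
  have hgm : g ∈ Ideal.span ({x, y, z, t} : Set ℤ) := by
    rw [hg]
    exact Ideal.mem_span_singleton_self g
  rw [Ideal.mem_span_insert] at hgm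
  obtain ⟨a, v1, hv1, h1⟩ := hgm
  rw [Ideal.mem_span_insert] at hv1
  obtain ⟨b, v2, hv2, h2⟩ := hv1
  rw [Ideal.mem_span_insert] at hv2
  obtain ⟨c, v3, hv3, h3⟩ := hv2
  rw [Ideal.mem_span_singleton'] at hv3
  obtain ⟨d, h4⟩ := hv3
  have hlin : a * x' + b * y' + c * z' + d * t' = 1 := by
    apply mul_left_cancel₀ hg0
    rw [← h4] at h3
    rw [h3] at h2
    rw [h2] at h1
    calc g * (a * x' + b * y' + c * z' + d * t') =
        a * (g * x') + (b * (g * y') + (c * (g * z') + d * (g * t'))) := by ring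
      _ = g * 1 := by
        rw [← hx, ← hy, ← hz, ← ht, mul_one]
        exact h1.symm
  have htop : Ideal.span ({x', y', z', t'} : Set ℤ) = ⊤ := by
    rw [Ideal.eq_top_iff_one, ← hlin]
    refine Ideal.add_mem _ (Ideal.add_mem _ (Ideal.add_mem _ ?_ ?_) ?_) ?_ <;>
      exact Ideal.mul_mem_left _ _ (Ideal.subset_span (by simp))
  have htop3 := Ideal.span_pow_eq_top _ htop 3
  have hone : (1 : ℤ) ∈ Ideal.span ((fun x : ℤ => x ^ 3) '' ({x', y', z', t'} : Set ℤ)) := by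
    rw [htop3]
    trivial
  rw [Set.image_insert_eq, Set.image_insert_eq, Set.image_insert_eq, Set.image_singleton,
    Ideal.mem_span_insert] at hone
  obtain ⟨a, v1, hv1, h1⟩ := hone
  rw [Ideal.mem_span_insert] at hv1
  obtain ⟨b, v2, hv2, h2⟩ := hv1
  rw [Ideal.mem_span_insert] at hv2
  obtain ⟨c, v3, hv3, h3⟩ := hv2
  rw [Ideal.mem_span_singleton'] at hv3
  obtain ⟨d, h4⟩ := hv3
  have hF' : F x' y' z' t' = 0 := by
    have : g ^ 3 * F x' y' z' t' = 0 := by
      rw [← hF, hx, hy, hz, ht]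
      unfold F
      ring
    exact (mul_eq_zero.1 this).resolve_left (pow_ne_zero _ hg0)
  refine no_prim x' y' z' t' hF' ⟨a, b, c, d, ?_⟩
  rw [h1, h2, h3, ← h4]
  ring

end Pool.Agent.E8helper69.CB
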